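import Pool.Agent.N913.KT.T1

set_option autoImplicit false
set_option linter.unusedSectionVars false

/-! Boxes of integer vectors over an index type; translations. -/

namespace Pool.Agent.N913.KS

open Finset
open Pool.Agent.N913.KT (edge_card)

variable {ι : Type} [Fintype ι] [DecidableEq ι]

/-- the coefficient vectors in a box and a class -/
noncomputable def Bx (H W : ℕ) (cs : ι → ℤ) : Finset (ι → ℤ) :=
  Fintype.piFinset (fun i => (Icc (-(H : ℤ)) H).filter (fun x => (W : ℤ) ∣ x - cs i))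

theorem mem_Bx (H W : ℕ) (cs c : ι → ℤ) :
    c ∈ Bx H W cs ↔ ∀ i, |c i| ≤ H ∧ (W : ℤ) ∣ c i - cs i := by
  unfold Bx
  rw [Fintype.mem_piFinset]
  apply forall_congr'
  intro i
  rw [mem_filter, mem_Icc, abs_le]

/-- the vectors near the boundary -/
noncomputable def strip (H W σ : ℕ) (cs : ι → ℤ) : Finset (ι → ℤ) :=
  (Bx H W cs).filter (fun c => ∃ i, (H : ℤ) - σ < |c i|)

theorem strip_card (H W σ : ℕ) (cs : ι → ℤ) :
    ((strip H W σ cs).card : ℝ) ≤ Fintype.card ι * (2 * σ) * (2 * H + 1) ^ (Fintype.card ι - 1) := by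
  have hsub : strip H W σ cs ⊆ (univ : Finset ι).biUnion (fun i =>
      Fintype.piFinset (Function.update (fun _ => Icc (-(H : ℤ)) H) i
        ((Icc (-(H : ℤ)) H).filter (fun x => (H : ℤ) - σ < |x|)))) := by
    intro c hc
    unfold strip at hc
    rw [mem_filter, mem_Bx] at hc
    obtain ⟨hc1, i, hi⟩ := hc
    rw [mem_biUnion]
    refine ⟨i, mem_univ _, ?_⟩
    rw [Fintype.mem_piFinset]
    intro j
    by_cases hj : j = i
    · subst hj
      rw [Function.update_self, mem_filter, mem_Icc]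
      exact ⟨abs_le.1 (hc1 j).1, hi⟩
    · rw [Function.update_of_ne hj, mem_Icc]
      exact abs_le.1 (hc1 j).1
  have hI : ((Icc (-(H : ℤ)) H).card : ℕ) = 2 * H + 1 := by
    rw [Int.card_Icc]; omega
  have hone : ∀ i : ι, (Fintype.piFinset (Function.update (fun _ => Icc (-(H : ℤ)) H) i
        ((Icc (-(H : ℤ)) H).filter (fun x => (H : ℤ) - σ < |x|)))).card ≤
        2 * σ * (2 * H + 1) ^ (Fintype.card ι - 1) := by
    intro i
    rw [Fintype.card_piFinset, ← mul_prod_erase univ _ (mem_univ i), Function.update_self]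
    apply Nat.mul_le_mul (edge_card H σ)
    rw [prod_congr rfl (g := fun _ => 2 * H + 1) (fun j hj => by
      rw [Function.update_of_ne (ne_of_mem_erase hj), hI]), prod_const, card_erase_of_mem (mem_univ i),
      card_univ]
  have h1 := (card_le_card hsub).trans card_biUnion_le
  have h2 := h1.trans (sum_le_card_nsmul _ _ _ (fun i _ => hone i))
  rw [card_univ, smul_eq_mul] at h2
  have h3 : ((strip H W σ cs).card : ℝ) ≤ ((Fintype.card ι * (2 * σ * (2 * H + 1) ^ (Fintype.card ι - 1)) : ℕ) : ℝ) := by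
    exact_mod_cast h2
  refine h3.trans (le_of_eq ?_)
  push_cast
  ring

theorem transl_le (H W σ : ℕ) (cs s : ι → ℤ) (hs : ∀ i, (W : ℤ) ∣ s i)
    (hσ : ∀ i, |s i| ≤ σ) (F : (ι → ℤ) → ℝ) (hF0 : ∀ c, 0 ≤ F c) (B : ℝ)
    (hF : ∀ c ∈ Bx H W cs, F (c + s) ≤ B) :
    ∑ c ∈ Bx H W cs, F (c + s) ≤ ∑ c ∈ Bx H W cs, F c + B * (strip H W σ cs).card := by
  rw [← sum_filter_add_sum_filter_not (Bx H W cs) (fun c => c + s ∈ Bx H W cs)]
  apply add_le_add
  · have h1 : ∑ c ∈ (Bx H W cs).filter (fun c => c + s ∈ Bx H W cs), F (c + s) =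
        ∑ c ∈ ((Bx H W cs).filter (fun c => c + s ∈ Bx H W cs)).image (fun c => c + s), F c := by
      rw [sum_image]
      intro a _ b _ hab
      exact add_right_cancel hab
    rw [h1]
    apply sum_le_sum_of_subset_of_nonneg
    · intro c hc
      rw [mem_image] at hc
      obtain ⟨a, ha, rfl⟩ := hc
      exact (mem_filter.1 ha).2
    · intro c _ _
      exact hF0 c
  · have h2 : (Bx H W cs).filter (fun c => ¬ c + s ∈ Bx H W cs) ⊆ strip H W σ cs := by
      intro c hc
      rw [mem_filter, mem_Bx, mem_Bx] at hc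
      obtain ⟨hc1, hc2⟩ := hc
      unfold strip
      rw [mem_filter, mem_Bx]
      refine ⟨hc1, ?_⟩
      by_contra hcon
      push Not at hcon
      apply hc2
      intro i
      have h3 := hcon i
      have h4 := hσ i
      constructor
      · rw [Pi.add_apply]
        have := abs_add_le (c i) (s i)
        linarith
      · rw [Pi.add_apply]
        have e : c i + s i - cs i = (c i - cs i) + s i := by ring
        rw [e]
        exact dvd_add (hc1 i).2 (hs i)
    have hB : 0 ≤ B ∨ (Bx H W cs).filter (fun c => ¬ c + s ∈ Bx H W cs) = ∅ := by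
      by_cases hne : ((Bx H W cs).filter (fun c => ¬ c + s ∈ Bx H W cs)).Nonempty
      · obtain ⟨c, hc⟩ := hne
        left
        exact (hF0 _).trans (hF c (mem_filter.1 hc).1)
      · right
        exact not_nonempty_iff_eq_empty.1 hne
    rcases hB with hB | hB
    · calc _ ≤ ∑ c ∈ (Bx H W cs).filter (fun c => ¬ c + s ∈ Bx H W cs), B :=
            sum_le_sum fun c hc => hF c (mem_filter.1 hc).1
        _ = B * ((Bx H W cs).filter (fun c => ¬ c + s ∈ Bx H W cs)).card := by
            rw [sum_const, nsmul_eq_mul, mul_comm]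
        _ ≤ _ := by
            apply mul_le_mul_of_nonneg_left _ hB
            exact_mod_cast card_le_card h2
    · rw [hB, sum_empty]
      by_cases hne : (Bx H W cs).Nonempty
      · obtain ⟨c, hc⟩ := hne
        exact mul_nonneg ((hF0 _).trans (hF c hc)) (Nat.cast_nonneg _)
      · rw [not_nonempty_iff_eq_empty] at hne
        have : strip H W σ cs = ∅ := by unfold strip; rw [hne]; rfl
        rw [this, card_empty, Nat.cast_zero, mul_zero]

/-- translations -/
theorem transl (H W σ : ℕ) (cs s : ι → ℤ) (hs : ∀ i, (W : ℤ) ∣ s i)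
    (hσ : ∀ i, |s i| ≤ σ) (F : (ι → ℤ) → ℝ) (hF0 : ∀ c, 0 ≤ F c) (B : ℝ)
    (hF : ∀ c ∈ Bx H W cs, F (c + s) ≤ B) (hF' : ∀ c ∈ Bx H W cs, F c ≤ B) :
    |∑ c ∈ Bx H W cs, F (c + s) - ∑ c ∈ Bx H W cs, F c| ≤ B * (strip H W σ cs).card := by
  have h1 := transl_le H W σ cs s hs hσ F hF0 B hF
  have h2 := transl_le H W σ cs (-s) (fun i => by rw [Pi.neg_apply, dvd_neg]; exact hs i)
    (fun i => by rw [Pi.neg_apply, abs_neg]; exact hσ i) (fun c => F (c + s)) (fun c => hF0 _) B
    (fun c hc => by simpa using hF' c hc)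
  simp only [neg_add_cancel_right] at h2
  rw [abs_le]
  constructor <;> linarith

end Pool.Agent.N913.KS
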