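import Pool.Agent.N913.KS.S9

set_option autoImplicit false
set_option linter.unusedSectionVars false

/-! Local moments. -/

namespace Pool.Agent.N913.KS

open Finset Polynomial
open Pool.Agent.N913.KT (pol om)

noncomputable def Qp {r : ℕ} (P : Fin r → ℤ[X]) (p : ℕ) : Fin r → (ZMod p)[X] :=
  fun a => (P a).map (Int.castRingHom (ZMod p))

def cz {ι : Type} (p : ℕ) (c : ι → ℤ) : ι → ZMod p := fun y => (c y : ZMod p)

theorem cast_ev {r N p : ℕ} (P : Fin r → ℤ[X]) (c : Fin r × Fin N → ℤ) (x : Fin r × ℤ) :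
    ((ev P c x : ℤ) : ZMod p) = evp (Qp P p) (cz p c) (x.1, (x.2 : ZMod p)) := by
  unfold ev evp pol Qp cz blk
  rw [eval_add, Int.cast_add, eval_finsetSum]
  simp only
  congr 1
  · rw [eval_intCast_map]
    rfl
  · rw [Int.cast_sum]
    apply sum_congr rfl
    intro i _
    rw [eval_mul, eval_C, eval_pow, eval_X]
    push_cast
    rfl

/-- the positions modulo `p` -/
noncomputable def Tn {r k : ℕ} (α : Fin k → Fin r) (τ : Fin k → ℤ[X]) (p n : ℕ) : Finset (Fin r × ZMod p) :=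
  (univ : Finset (Fin k)).image (fun i => (α i, (((τ i).eval (n : ℤ) : ℤ) : ZMod p)))

theorem Tn_card {r k : ℕ} (α : Fin k → Fin r) (τ : Fin k → ℤ[X]) (p n : ℕ) : (Tn α τ p n).card ≤ k := by
  unfold Tn
  refine card_image_le.trans (le_of_eq ?_)
  rw [card_univ, Fintype.card_fin]

theorem Tn_bc {r k : ℕ} (α : Fin k → Fin r) (τ : Fin k → ℤ[X]) (p n : ℕ) (a : Fin r) :
    ((Tn α τ p n).filter (fun y => y.1 = a)).card ≤ (univ.filter (fun i => α i = a)).card := by
  classical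
  unfold Tn
  rw [filter_image]
  exact card_image_le

theorem dvd_iff {r k N p : ℕ} [Fact p.Prime] (α : Fin k → Fin r) (τ : Fin k → ℤ[X]) (P : Fin r → ℤ[X])
    (c : Fin r × Fin N → ℤ) (n : ℕ) :
    (¬ (p : ℤ) ∣ (FP α τ (pf P c)).eval (n : ℤ)) ↔ ∀ x ∈ Tn α τ p n, evp (Qp P p) (cz p c) x ≠ 0 := by
  have hp := (Fact.out : p.Prime)
  rw [FP_eval, Prime.dvd_finsetProd_iff (Nat.prime_iff_prime_int.1 hp)]
  unfold Tn
  constructor
  · intro h x hx
    rw [mem_image] at hx
    obtain ⟨i, _, rfl⟩ := hx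
    intro h0
    apply h
    refine ⟨i, mem_univ _, ?_⟩
    have e := cast_ev (p := p) P c (α i, (τ i).eval (n : ℤ))
    simp only at e
    rw [h0] at e
    exact (ZMod.intCast_zmod_eq_zero_iff_dvd _ _).1 e
  · intro h ⟨i, _, h2⟩
    have e := cast_ev (p := p) P c (α i, (τ i).eval (n : ℤ))
    simp only at e
    apply h _ (mem_image_of_mem _ (mem_univ i))
    rw [← e]
    exact (ZMod.intCast_zmod_eq_zero_iff_dvd _ _).2 h2

/-- number of good arguments modulo `p` -/
noncomputable def Bp {r k N : ℕ} (α : Fin k → Fin r) (τ : Fin k → ℤ[X]) (P : Fin r → ℤ[X]) (p : ℕ)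
    (c : Fin r × Fin N → ZMod p) : ℕ :=
  ((range p).filter (fun n => ∀ x ∈ Tn α τ p n, evp (Qp P p) c x ≠ 0)).card

theorem om_Bp {r k N p : ℕ} [Fact p.Prime] (α : Fin k → Fin r) (τ : Fin k → ℤ[X]) (P : Fin r → ℤ[X])
    (c : Fin r × Fin N → ℤ) :
    1 - (om (FP α τ (pf P c)) p : ℝ) / p = (Bp α τ P p (cz p c) : ℝ) / p := by
  have hp0 : (0 : ℝ) < p := by exact_mod_cast (Fact.out : p.Prime).pos
  have h1 : Bp α τ P p (cz p c) =
      ((range p).filter (fun n : ℕ => ¬ (p : ℤ) ∣ (FP α τ (pf P c)).eval (n : ℤ))).card := by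
    unfold Bp
    simp only [card_filter]
    apply sum_congr rfl
    intro n _
    have h2 := dvd_iff (p := p) α τ P c n
    by_cases h : (p : ℤ) ∣ (FP α τ (pf P c)).eval (n : ℤ)
    · rw [if_neg (fun h3 => h2.2 h3 h), if_neg (not_not.2 h)]
    · rw [if_pos (h2.1 h), if_pos h]
  have h3 := card_filter_add_card_filter_not (s := range p)
    (fun n : ℕ => (p : ℤ) ∣ (FP α τ (pf P c)).eval (n : ℤ))
  rw [card_range, ← h1] at h3
  have h4 : ((om (FP α τ (pf P c)) p : ℕ) : ℝ) + (Bp α τ P p (cz p c) : ℝ) = p := by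
    exact_mod_cast h3
  field_simp
  linarith

theorem mom1 {r k N p : ℕ} [Fact p.Prime] (α : Fin k → Fin r) (τ : Fin k → ℤ[X]) (P : Fin r → ℤ[X])
    (hN : ∀ a, 2 * (univ.filter (fun i => α i = a)).card ≤ N) :
    (p : ℝ) * ((p : ℝ) ^ (r * N) * (1 - 1 / (p : ℝ)) ^ k) ≤
      ∑ c : Fin r × Fin N → ZMod p, (Bp α τ P p c : ℝ) := by
  classical
  have hp := (Fact.out : p.Prime)
  have hp1 : (1 : ℝ) < p := by exact_mod_cast hp.one_lt
  have hq0 : 0 ≤ 1 - 1 / (p : ℝ) := by
    have : 1 / (p : ℝ) ≤ 1 := by rw [div_le_one (by linarith)]; linarith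
    linarith
  have hq1 : 1 - 1 / (p : ℝ) ≤ 1 := by
    have : 0 ≤ 1 / (p : ℝ) := by positivity
    linarith
  have e : ∑ c : Fin r × Fin N → ZMod p, (Bp α τ P p c : ℝ) =
      ∑ n ∈ range p, (((univ : Finset (Fin r × Fin N → ZMod p)).filter
        (fun c => ∀ x ∈ Tn α τ p n, evp (Qp P p) c x ≠ 0)).card : ℝ) := by
    unfold Bp
    simp only [card_filter]
    push_cast
    rw [sum_comm]
  rw [e]
  have h1 : ∀ n ∈ range p, (p : ℝ) ^ (r * N) * (1 - 1 / (p : ℝ)) ^ k ≤
      (((univ : Finset (Fin r × Fin N → ZMod p)).filter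
        (fun c => ∀ x ∈ Tn α τ p n, evp (Qp P p) c x ≠ 0)).card : ℝ) := by
    intro n _
    rw [cnt (Qp P p) (Tn α τ p n) (fun a => (Tn_bc α τ p n a).trans (by have := hN a; omega))]
    apply mul_le_mul_of_nonneg_left _ (by positivity)
    exact pow_le_pow_of_le_one hq0 hq1 (Tn_card α τ p n)
  have h2 := card_nsmul_le_sum _ _ _ h1
  rw [card_range, nsmul_eq_mul] at h2
  exact h2

theorem rootsp {p : ℕ} [Fact p.Prime] (g : (ZMod p)[X]) (hg : g ≠ 0) :
    ((range p).filter (fun n : ℕ => g.eval (n : ZMod p) = 0)).card ≤ g.natDegree := by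
  classical
  have h1 : ((range p).filter (fun n : ℕ => g.eval (n : ZMod p) = 0)).card ≤ g.roots.toFinset.card := by
    apply card_le_card_of_injOn (fun n : ℕ => (n : ZMod p))
    · intro n hn
      rw [mem_coe, mem_filter] at hn
      rw [mem_coe, Multiset.mem_toFinset, mem_roots hg]
      exact hn.2
    · intro a ha b hb hab
      rw [mem_coe, mem_filter, mem_range] at ha hb
      simp only at hab
      rw [ZMod.natCast_eq_natCast_iff] at hab
      exact hab.eq_of_lt_of_lt ha.1 hb.1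
  exact h1.trans ((Multiset.toFinset_card_le _).trans (card_roots' g))

/-- the primes for which the arguments are in general position -/
structure Gp {r k : ℕ} (α : Fin k → Fin r) (τ : Fin k → ℤ[X]) (p : ℕ) : Prop where
  one : ∀ j, ¬ (p : ℤ) ∣ (τ j).leadingCoeff
  two : ∀ i j, τ i ≠ τ j → ¬ (p : ℤ) ∣ (τ i - τ j).leadingCoeff

theorem Gp_evt {r k : ℕ} (α : Fin k → Fin r) (τ : Fin k → ℤ[X]) (hτ : ∀ i, 1 ≤ (τ i).natDegree) :
    ∃ p0 : ℕ, ∀ p : ℕ, p0 ≤ p → Gp α τ p := by
  obtain ⟨G, hG⟩ : ∃ G : Fin k → ℕ, G = fun i => (τ i).leadingCoeff.natAbs := ⟨_, rfl⟩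
  obtain ⟨F, hF⟩ : ∃ F : Fin k → Fin k → ℕ, F = fun i j => (τ i - τ j).leadingCoeff.natAbs := ⟨_, rfl⟩
  obtain ⟨A, hA⟩ : ∃ A, A = ∑ i, G i := ⟨_, rfl⟩
  obtain ⟨B, hB⟩ : ∃ B, B = ∑ i, ∑ j, F i j := ⟨_, rfl⟩
  refine ⟨A + B + 1, fun p hp => ⟨fun j h => ?_, fun i j hij h => ?_⟩⟩
  · have h1 : (τ j).leadingCoeff.natAbs ≤ A := by
      have h5 : G j ≤ A := by
        rw [hA]
        exact single_le_sum (fun _ _ => Nat.zero_le _) (mem_univ j)
      rw [hG] at h5
      exact h5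
    have h2 : (τ j).leadingCoeff ≠ 0 := by
      intro h0
      rw [leadingCoeff_eq_zero] at h0
      have := hτ j
      rw [h0, natDegree_zero] at this
      omega
    have h3 := Int.natCast_dvd.1 h
    have h4 := Nat.le_of_dvd (Int.natAbs_pos.2 h2) h3
    omega
  · have h1 : (τ i - τ j).leadingCoeff.natAbs ≤ B := by
      have h5 : F i j ≤ ∑ j, F i j := single_le_sum (fun _ _ => Nat.zero_le _) (mem_univ j)
      have h6 : ∑ j, F i j ≤ B := by
        rw [hB]
        exact single_le_sum (f := fun i => ∑ j, F i j) (fun _ _ => Nat.zero_le _) (mem_univ i)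
      have h7 := h5.trans h6
      rw [hF] at h7
      exact h7
    have h2 : (τ i - τ j).leadingCoeff ≠ 0 := by
      rw [Ne, leadingCoeff_eq_zero]
      exact sub_ne_zero.2 hij
    have h3 := Int.natCast_dvd.1 h
    have h4 := Nat.le_of_dvd (Int.natAbs_pos.2 h2) h3
    omega

theorem map_ne {p : ℕ} (q : ℤ[X]) (h : ¬ (p : ℤ) ∣ q.leadingCoeff) :
    q.map (Int.castRingHom (ZMod p)) ≠ 0 ∧ (q.map (Int.castRingHom (ZMod p))).natDegree = q.natDegree := by
  have h1 : (Int.castRingHom (ZMod p)) q.leadingCoeff ≠ 0 := by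
    intro h0
    exact h ((ZMod.intCast_zmod_eq_zero_iff_dvd _ _).1 h0)
  refine ⟨?_, natDegree_map_of_leadingCoeff_ne_zero _ h1⟩
  intro h0
  apply h1
  have := congrArg (fun g => g.coeff q.natDegree) h0
  simp only [coeff_map, coeff_zero] at this
  exact this

/-- the arguments with a collision -/
theorem bad1 {r k p : ℕ} [Fact p.Prime] (α : Fin k → Fin r) (τ : Fin k → ℤ[X])
    (hinj : Function.Injective (fun i => (α i, τ i))) (hG : Gp α τ p) :
    ((range p).filter (fun n => (Tn α τ p n).card ≠ k)).card ≤ k * k * ∑ j, (τ j).natDegree := by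
  classical
  have hsub : (range p).filter (fun n => (Tn α τ p n).card ≠ k) ⊆
      (univ : Finset (Fin k × Fin k)).biUnion (fun a => if τ a.1 = τ a.2 then ∅ else
        (range p).filter (fun n : ℕ =>
          ((τ a.1 - τ a.2).map (Int.castRingHom (ZMod p))).eval (n : ZMod p) = 0)) := by
    intro n hn
    rw [mem_filter] at hn
    obtain ⟨h1, h2⟩ := hn
    have h3 : ¬ Function.Injective (fun i => (α i, (((τ i).eval (n : ℤ) : ℤ) : ZMod p))) := by
      intro h
      apply h2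
      unfold Tn
      rw [card_image_of_injective _ h, card_univ, Fintype.card_fin]
    unfold Function.Injective at h3
    push Not at h3
    obtain ⟨i, j, h4, h5⟩ := h3
    have h6 := congrArg Prod.fst h4
    have h7 := congrArg Prod.snd h4
    simp only at h6 h7
    have h8 : τ i ≠ τ j := fun h => h5 (hinj (Prod.ext h6 h))
    rw [mem_biUnion]
    refine ⟨(i, j), mem_univ _, ?_⟩
    rw [if_neg h8, mem_filter]
    refine ⟨h1, ?_⟩
    have e : (n : ZMod p) = (((n : ℤ)) : ZMod p) := by push_cast; rfl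
    rw [e, eval_intCast_map, eval_sub]
    simp only [eq_intCast, Int.cast_sub, Int.cast_id]
    rw [h7, sub_self]
  refine (card_le_card hsub).trans (card_biUnion_le.trans ?_)
  refine (sum_le_card_nsmul _ _ (∑ j, (τ j).natDegree) ?_).trans (le_of_eq ?_)
  · intro a _
    split_ifs with h
    · rw [card_empty]; exact Nat.zero_le _
    · obtain ⟨g1, g2⟩ := map_ne (p := p) _ (hG.two a.1 a.2 h)
      refine (rootsp _ g1).trans ?_
      rw [g2]
      exact (natDegree_sub_le _ _).trans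
        (max_le (Pool.Agent.N913.KT.deg_le τ _) (Pool.Agent.N913.KT.deg_le τ _))
  · rw [card_univ, Fintype.card_prod, Fintype.card_fin, smul_eq_mul]

theorem bad2 {r k p : ℕ} [Fact p.Prime] (α : Fin k → Fin r) (τ : Fin k → ℤ[X])
    (hτ : ∀ i, 1 ≤ (τ i).natDegree) (hG : Gp α τ p) (n : ℕ) :
    ((range p).filter (fun m => ¬ Disjoint (Tn α τ p n) (Tn α τ p m))).card ≤
      k * k * ∑ j, (τ j).natDegree := by
  classical
  have hsub : (range p).filter (fun m => ¬ Disjoint (Tn α τ p n) (Tn α τ p m)) ⊆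
      (univ : Finset (Fin k × Fin k)).biUnion (fun a => (range p).filter (fun m : ℕ =>
          ((τ a.2).map (Int.castRingHom (ZMod p)) -
            C (((τ a.1).eval (n : ℤ) : ℤ) : ZMod p)).eval (m : ZMod p) = 0)) := by
    intro m hm
    rw [mem_filter] at hm
    obtain ⟨h1, h2⟩ := hm
    rw [not_disjoint_iff] at h2
    obtain ⟨x, hx1, hx2⟩ := h2
    unfold Tn at hx1 hx2
    rw [mem_image] at hx1 hx2
    obtain ⟨i, _, h3⟩ := hx1
    obtain ⟨j, _, h4⟩ := hx2
    rw [mem_biUnion]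
    refine ⟨(i, j), mem_univ _, ?_⟩
    rw [mem_filter]
    refine ⟨h1, ?_⟩
    have h5 := congrArg Prod.snd (h3.trans h4.symm)
    simp only at h5
    have e : (m : ZMod p) = (((m : ℤ)) : ZMod p) := by push_cast; rfl
    rw [eval_sub, eval_C, e, eval_intCast_map, eq_intCast, Int.cast_id, h5, sub_self]
  refine (card_le_card hsub).trans (card_biUnion_le.trans ?_)
  refine (sum_le_card_nsmul _ _ (∑ j, (τ j).natDegree) ?_).trans (le_of_eq ?_)
  · intro a _
    obtain ⟨g1, g2⟩ := map_ne (p := p) _ (hG.one a.2)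
    refine (rootsp _ ?_).trans ?_
    · intro h0
      have h3 := hτ a.2
      have h4 : ((τ a.2).map (Int.castRingHom (ZMod p)) -
            C (((τ a.1).eval (n : ℤ) : ℤ) : ZMod p)).natDegree = (τ a.2).natDegree := by
        rw [natDegree_sub_C, g2]
      rw [h0, natDegree_zero] at h4
      omega
    · rw [natDegree_sub_C, g2]
      exact Pool.Agent.N913.KT.deg_le τ a.2
  · rw [card_univ, Fintype.card_prod, Fintype.card_fin, smul_eq_mul]

theorem mom2 {r k N p : ℕ} [Fact p.Prime] (α : Fin k → Fin r) (τ : Fin k → ℤ[X]) (P : Fin r → ℤ[X])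
    (hτ : ∀ i, 1 ≤ (τ i).natDegree) (hinj : Function.Injective (fun i => (α i, τ i)))
    (hN : ∀ a, 2 * (univ.filter (fun i => α i = a)).card ≤ N) (hG : Gp α τ p) :
    ∑ c : Fin r × Fin N → ZMod p, (Bp α τ P p c : ℝ) ^ 2 ≤
      (p : ℝ) ^ (r * N) * ((p : ℝ) ^ 2 * (1 - 1 / (p : ℝ)) ^ (2 * k) +
        6 * k * (k * k * ∑ j, (τ j).natDegree : ℕ)) := by
  classical
  have hp := (Fact.out : p.Prime)
  have hp1 : (1 : ℝ) < p := by exact_mod_cast hp.one_lt
  have hq0 : 0 ≤ 1 - 1 / (p : ℝ) := by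
    have : 1 / (p : ℝ) ≤ 1 := by rw [div_le_one (by linarith)]; linarith
    linarith
  have hq1 : 1 - 1 / (p : ℝ) ≤ 1 := by
    have : 0 ≤ 1 / (p : ℝ) := by positivity
    linarith
  obtain ⟨C1, hC1⟩ : ∃ C1, C1 = k * k * ∑ j, (τ j).natDegree := ⟨_, rfl⟩
  rw [← hC1]
  have e : ∑ c : Fin r × Fin N → ZMod p, (Bp α τ P p c : ℝ) ^ 2 =
      ∑ n ∈ range p, ∑ m ∈ range p, (((univ : Finset (Fin r × Fin N → ZMod p)).filter
        (fun c => ∀ x ∈ Tn α τ p n ∪ Tn α τ p m, evp (Qp P p) c x ≠ 0)).card : ℝ) := by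
    have e1 : ∀ c : Fin r × Fin N → ZMod p, (Bp α τ P p c : ℝ) ^ 2 =
        ∑ n ∈ range p, ∑ m ∈ range p,
          (if ∀ x ∈ Tn α τ p n ∪ Tn α τ p m, evp (Qp P p) c x ≠ 0 then (1 : ℝ) else 0) := by
      intro c
      unfold Bp
      rw [card_filter]
      push_cast
      rw [sq, sum_mul_sum]
      apply sum_congr rfl
      intro n _
      apply sum_congr rfl
      intro m _
      rw [ite_zero_mul_ite_zero, mul_one]
      by_cases h : ∀ x ∈ Tn α τ p n ∪ Tn α τ p m, evp (Qp P p) c x ≠ 0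
      · rw [if_pos h, if_pos (forall_mem_union.1 h)]
      · rw [if_neg h, if_neg (fun h2 => h (forall_mem_union.2 h2))]
    rw [sum_congr rfl (fun c _ => e1 c), sum_comm]
    apply sum_congr rfl
    intro n _
    rw [sum_comm]
    apply sum_congr rfl
    intro m _
    rw [card_filter]
    push_cast
    rfl
  rw [e]
  obtain ⟨q, hq⟩ : ∃ q, q = 1 - 1 / (p : ℝ) := ⟨_, rfl⟩
  rw [← hq]
  have hbern : 1 - 2 * k / p ≤ q ^ (2 * k) := by
    have h1 := one_add_mul_le_pow (a := -(1 / (p : ℝ))) (by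
      have : 1 / (p : ℝ) ≤ 1 := by rw [div_le_one (by linarith)]; linarith
      linarith) (2 * k)
    have e2 : 1 + -(1 / (p : ℝ)) = q := by rw [hq]; ring
    rw [e2] at h1
    refine le_trans (le_of_eq ?_) h1
    push_cast
    ring
  have hterm : ∀ n ∈ range p, ∀ m ∈ range p, (((univ : Finset (Fin r × Fin N → ZMod p)).filter
        (fun c => ∀ x ∈ Tn α τ p n ∪ Tn α τ p m, evp (Qp P p) c x ≠ 0)).card : ℝ) ≤
      (p : ℝ) ^ (r * N) * (q ^ (2 * k) +
        ((if (Tn α τ p n).card ≠ k then 2 * (k : ℝ) / p else 0) +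
        (if (Tn α τ p m).card ≠ k then 2 * (k : ℝ) / p else 0) +
        (if ¬ Disjoint (Tn α τ p n) (Tn α τ p m) then 2 * (k : ℝ) / p else 0))) := by
    intro n _ m _
    rw [cnt (Qp P p) (Tn α τ p n ∪ Tn α τ p m) (by
      intro a
      rw [filter_union]
      refine (card_union_le _ _).trans ?_
      have h1 := Tn_bc α τ p n a
      have h2 := Tn_bc α τ p m a
      have h3 := hN a
      omega), ← hq]
    apply mul_le_mul_of_nonneg_left _ (by positivity)
    have hkp : 0 ≤ 2 * (k : ℝ) / p := by positivity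
    have hone : q ^ (Tn α τ p n ∪ Tn α τ p m).card ≤ q ^ (2 * k) + 2 * (k : ℝ) / p := by
      have : q ^ (Tn α τ p n ∪ Tn α τ p m).card ≤ 1 := pow_le_one₀ (by rw [hq]; exact hq0) (by rw [hq]; exact hq1)
      linarith
    by_cases a1 : (Tn α τ p n).card = k
    · by_cases a2 : (Tn α τ p m).card = k
      · by_cases a3 : Disjoint (Tn α τ p n) (Tn α τ p m)
        · rw [if_neg (not_not.2 a1), if_neg (not_not.2 a2), if_neg (not_not.2 a3),
            card_union_of_disjoint a3, a1, a2, two_mul]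
          simp
        · rw [if_neg (not_not.2 a1), if_neg (not_not.2 a2), if_pos a3]
          linarith
      · rw [if_neg (not_not.2 a1), if_pos a2]
        split_ifs <;> linarith
    · rw [if_pos a1]
      split_ifs <;> linarith
  refine (sum_le_sum fun n hn => sum_le_sum fun m hm => hterm n hn m hm).trans ?_
  have hb1 : ((range p).filter (fun n => (Tn α τ p n).card ≠ k)).card ≤ C1 := by
    rw [hC1]; exact bad1 α τ hinj hG
  have hb2 : ∀ n, ((range p).filter (fun m => ¬ Disjoint (Tn α τ p n) (Tn α τ p m))).card ≤ C1 := by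
    intro n; rw [hC1]; exact bad2 α τ hτ hG n
  have s1 : ∑ n ∈ range p, ∑ _m ∈ range p, (if (Tn α τ p n).card ≠ k then 2 * (k : ℝ) / p else 0) ≤
      2 * k * C1 := by
    have : ∀ n ∈ range p, ∑ _m ∈ range p, (if (Tn α τ p n).card ≠ k then 2 * (k : ℝ) / p else 0) =
        if (Tn α τ p n).card ≠ k then 2 * (k : ℝ) else 0 := by
      intro n _
      rw [sum_const, card_range, nsmul_eq_mul]
      split_ifs
      · field_simp
      · simp
    rw [sum_congr rfl this, ← sum_filter, sum_const, nsmul_eq_mul]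
    have : (((range p).filter (fun n => (Tn α τ p n).card ≠ k)).card : ℝ) ≤ C1 := by exact_mod_cast hb1
    have h2 := mul_le_mul_of_nonneg_right this (show (0 : ℝ) ≤ 2 * k by positivity)
    linarith
  have s2 : ∑ _n ∈ range p, ∑ m ∈ range p, (if (Tn α τ p m).card ≠ k then 2 * (k : ℝ) / p else 0) ≤
      2 * k * C1 := by
    rw [sum_comm]
    exact s1
  have s3 : ∑ n ∈ range p, ∑ m ∈ range p,
      (if ¬ Disjoint (Tn α τ p n) (Tn α τ p m) then 2 * (k : ℝ) / p else 0) ≤ 2 * k * C1 := by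
    have h1 : ∀ n ∈ range p, ∑ m ∈ range p,
        (if ¬ Disjoint (Tn α τ p n) (Tn α τ p m) then 2 * (k : ℝ) / p else 0) ≤ C1 * (2 * k / p) := by
      intro n _
      rw [← sum_filter, sum_const, nsmul_eq_mul]
      apply mul_le_mul_of_nonneg_right _ (by positivity)
      exact_mod_cast hb2 n
    refine (sum_le_card_nsmul _ _ _ h1).trans (le_of_eq ?_)
    rw [card_range, nsmul_eq_mul]
    field_simp
  have hsum : ∑ n ∈ range p, ∑ m ∈ range p, ((p : ℝ) ^ (r * N) * (q ^ (2 * k) +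
        ((if (Tn α τ p n).card ≠ k then 2 * (k : ℝ) / p else 0) +
        (if (Tn α τ p m).card ≠ k then 2 * (k : ℝ) / p else 0) +
        (if ¬ Disjoint (Tn α τ p n) (Tn α τ p m) then 2 * (k : ℝ) / p else 0)))) =
      (p : ℝ) ^ (r * N) * ((p : ℝ) ^ 2 * q ^ (2 * k) +
        (∑ n ∈ range p, ∑ _m ∈ range p, (if (Tn α τ p n).card ≠ k then 2 * (k : ℝ) / p else 0) +
        ∑ _n ∈ range p, ∑ m ∈ range p, (if (Tn α τ p m).card ≠ k then 2 * (k : ℝ) / p else 0) +
        ∑ n ∈ range p, ∑ m ∈ range p,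
          (if ¬ Disjoint (Tn α τ p n) (Tn α τ p m) then 2 * (k : ℝ) / p else 0))) := by
    simp only [← mul_sum, sum_add_distrib]
    congr 2
    rw [sum_const, sum_const, card_range, smul_smul, nsmul_eq_mul]
    push_cast
    ring
  rw [hsum]
  apply mul_le_mul_of_nonneg_left _ (by positivity)
  linarith

end Pool.Agent.N913.KS
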