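import Pool.Agent.N913.KS.S10

set_option autoImplicit false
set_option linter.unusedSectionVars false

/-! Vectors of residues; averages over boxes. -/

namespace Pool.Agent.N913.KS

open Finset Polynomial
open Pool.Agent.N913.KT (ioc_mod)

variable {ι : Type} [Fintype ι] [DecidableEq ι]

/-- vectors of residues -/
noncomputable def VV (ι : Type) [Fintype ι] [DecidableEq ι] (q : ℕ) : Finset (ι → ℤ) :=
  Fintype.piFinset (fun _ => Ico (0 : ℤ) q)

theorem mem_VV (q : ℕ) (c : ι → ℤ) : c ∈ VV ι q ↔ ∀ y, 0 ≤ c y ∧ c y < q := by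
  unfold VV
  rw [Fintype.mem_piFinset]
  simp only [mem_Ico]

/-- periodic functions -/
def Per {ι : Type} (q : ℕ) (A : (ι → ℤ) → ℝ) : Prop :=
  ∀ c c' : ι → ℤ, (∀ y, (q : ℤ) ∣ c y - c' y) → A c = A c'

theorem rs_mem (q : ℕ) (hq : 1 ≤ q) (c : ι → ℤ) : rs q c ∈ VV ι q := by
  have hq0 : (0 : ℤ) < q := by exact_mod_cast hq
  rw [mem_VV]
  exact fun y => ⟨Int.emod_nonneg _ hq0.ne', Int.emod_lt_of_pos _ hq0⟩

theorem Per_rs (q : ℕ) (A : (ι → ℤ) → ℝ) (hA : Per q A) (c : ι → ℤ) : A c = A (rs q c) :=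
  hA _ _ (fun _ => Int.dvd_self_sub_emod)

theorem crtv_two (m n : ℕ) (hm : 1 ≤ m) (hn : 1 ≤ n) (h : m.Coprime n) (A B : (ι → ℤ) → ℝ)
    (hA : Per m A) (hB : Per n B) :
    ∑ c ∈ VV ι (m * n), A c * B c = (∑ c ∈ VV ι m, A c) * ∑ c ∈ VV ι n, B c := by
  have hm0 : (0 : ℤ) < m := by exact_mod_cast hm
  have hn0 : (0 : ℤ) < n := by exact_mod_cast hn
  rw [sum_mul_sum, ← sum_product']
  have key : ∀ a b : ℤ, 0 ≤ a → a < m → 0 ≤ b → b < n →
      ((Nat.chineseRemainder h a.toNat b.toNat : ℕ) : ℤ) % m = a ∧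
      ((Nat.chineseRemainder h a.toNat b.toNat : ℕ) : ℤ) % n = b := by
    intro a b ha ham hb hbn
    have h1 := (Nat.chineseRemainder h a.toNat b.toNat).2
    have h2 := (Int.natCast_modEq_iff).2 h1.1
    have h3 := (Int.natCast_modEq_iff).2 h1.2
    rw [Int.toNat_of_nonneg ha] at h2
    rw [Int.toNat_of_nonneg hb] at h3
    unfold Int.ModEq at h2 h3
    rw [Int.emod_eq_of_lt ha ham] at h2
    rw [Int.emod_eq_of_lt hb hbn] at h3
    exact ⟨h2, h3⟩
  apply sum_nbij' (fun c => (rs m c, rs n c)) (fun x => fun y =>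
    ((Nat.chineseRemainder h (x.1 y).toNat (x.2 y).toNat : ℕ) : ℤ))
  · intro c _
    rw [mem_product]
    exact ⟨rs_mem m hm c, rs_mem n hn c⟩
  · intro x _
    rw [mem_VV]
    intro y
    refine ⟨Int.natCast_nonneg _, ?_⟩
    exact_mod_cast Nat.chineseRemainder_lt_mul h (x.1 y).toNat (x.2 y).toNat (by omega) (by omega)
  · intro c hc
    rw [mem_VV] at hc
    funext y
    simp only
    obtain ⟨k1, k2⟩ := key (c y % m) (c y % n) (Int.emod_nonneg _ hm0.ne') (Int.emod_lt_of_pos _ hm0)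
      (Int.emod_nonneg _ hn0.ne') (Int.emod_lt_of_pos _ hn0)
    have h1 : ((Nat.chineseRemainder h (rs m c y).toNat (rs n c y).toNat : ℕ) : ℤ) ≡ c y [ZMOD (m * n : ℤ)] := by
      rw [← Int.modEq_and_modEq_iff_modEq_mul (by simpa using h)]
      exact ⟨k1, k2⟩
    unfold Int.ModEq at h1
    have h2 : ((Nat.chineseRemainder h (rs m c y).toNat (rs n c y).toNat : ℕ) : ℤ) < m * n := by
      exact_mod_cast Nat.chineseRemainder_lt_mul h (rs m c y).toNat (rs n c y).toNat (by omega) (by omega)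
    have h3 := (hc y).2
    push_cast at h3
    rw [Int.emod_eq_of_lt (Int.natCast_nonneg _) h2, Int.emod_eq_of_lt (hc y).1 h3] at h1
    exact h1
  · intro x hx
    rw [mem_product, mem_VV, mem_VV] at hx
    apply Prod.ext
    · funext y
      exact (key (x.1 y) (x.2 y) (hx.1 y).1 (hx.1 y).2 (hx.2 y).1 (hx.2 y).2).1
    · funext y
      exact (key (x.1 y) (x.2 y) (hx.1 y).1 (hx.1 y).2 (hx.2 y).1 (hx.2 y).2).2
  · intro c _
    rw [Per_rs m A hA c, Per_rs n B hB c]

theorem VV_card (q : ℕ) : (VV ι q).card = q ^ (Fintype.card ι) := by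
  unfold VV
  rw [Fintype.card_piFinset, prod_const, card_univ, Int.card_Ico]
  congr 1

theorem crtv_prod (S : Finset ℕ) (g : ℕ → (ι → ℤ) → ℝ) : (∀ p ∈ S, p.Prime) → (∀ p ∈ S, Per p (g p)) →
    ∑ c ∈ VV ι (∏ p ∈ S, p), ∏ p ∈ S, g p c = ∏ p ∈ S, ∑ c ∈ VV ι p, g p c := by
  induction S using Finset.induction_on with
  | empty =>
    intro _ _
    simp only [prod_empty, sum_const, nsmul_eq_mul, mul_one]
    rw [VV_card]
    simp
  | insert q S hq ih =>
    intro hS hg
    have hS' : ∀ p ∈ S, p.Prime := fun p hp => hS p (mem_insert_of_mem hp)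
    have hg' : ∀ p ∈ S, Per p (g p) := fun p hp => hg p (mem_insert_of_mem hp)
    have hqp := hS q (mem_insert_self _ _)
    have hcop : q.Coprime (∏ p ∈ S, p) := by
      apply Nat.Coprime.prod_right
      intro p hp
      rw [Nat.coprime_primes hqp (hS' p hp)]
      rintro rfl
      exact hq hp
    have hpos : 1 ≤ ∏ p ∈ S, p := by
      have : 0 < ∏ p ∈ S, p := prod_pos fun p hp => (hS' p hp).pos
      exact this
    rw [prod_insert hq, prod_insert hq, ← ih hS' hg',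
      ← crtv_two q (∏ p ∈ S, p) hqp.one_lt.le hpos hcop (g q) (fun c => ∏ p ∈ S, g p c)
        (hg q (mem_insert_self _ _)) (by
        intro c c' h
        simp only
        apply prod_congr rfl
        intro p hp
        apply hg' p hp
        intro y
        exact dvd_trans (by exact_mod_cast dvd_prod_of_mem (fun p => p) hp) (h y))]
    apply sum_congr rfl
    intro c _
    rw [prod_insert hq]

theorem icc_mod (H q : ℕ) (hq : 1 ≤ q) (a : ℤ) :
    |(((Icc (-(H : ℤ)) H).filter (fun x => (q : ℤ) ∣ x - a)).card : ℝ) - (2 * H + 1) / q| ≤ 1 := by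
  have hq0 : (0 : ℤ) < q := by exact_mod_cast hq
  obtain ⟨i, hi⟩ : ∃ i : ℕ, (i : ℤ) = (a + H + 1) % q :=
    ⟨((a + H + 1) % q).toNat, Int.toNat_of_nonneg (Int.emod_nonneg _ hq0.ne')⟩
  have hi2 : (q : ℤ) ∣ (a + H + 1) - i := by rw [hi]; exact Int.dvd_self_sub_emod
  have e : ((Icc (-(H : ℤ)) H).filter (fun x => (q : ℤ) ∣ x - a)).card =
      ((Ioc 0 (0 + (2 * H + 1))).filter (fun n => n ≡ i [MOD q])).card := by
    apply card_nbij' (fun x : ℤ => (x + H + 1).toNat) (fun n : ℕ => (n : ℤ) - H - 1)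
    · intro x hx
      simp only [mem_coe, mem_filter, mem_Icc, mem_Ioc] at hx ⊢
      refine ⟨by omega, ?_⟩
      rw [Nat.modEq_iff_dvd, Int.toNat_of_nonneg (by omega)]
      have h1 := dvd_sub (dvd_neg.2 hx.2) hi2
      have e1 : (i : ℤ) - (x + H + 1) = -(x - a) - ((a + H + 1) - i) := by ring
      rw [e1]
      exact h1
    · intro n hn
      simp only [mem_coe, mem_filter, mem_Icc, mem_Ioc] at hn ⊢
      refine ⟨by omega, ?_⟩
      have h1 := Nat.modEq_iff_dvd.1 hn.2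
      have h2 := dvd_add h1 hi2
      have e1 : (n : ℤ) - H - 1 - a = -((i : ℤ) - n + ((a + H + 1) - i)) := by ring
      rw [e1, dvd_neg]
      exact h2
    · intro x hx
      simp only [mem_coe, mem_filter, mem_Icc] at hx
      simp only
      rw [Int.toNat_of_nonneg (by omega)]
      ring
    · intro n hn
      simp only [mem_coe, mem_filter, mem_Ioc] at hn
      simp only
      omega
  rw [e]
  have h := ioc_mod 0 (2 * H + 1) q i hq
  push_cast at h ⊢
  exact h

theorem box_avg {r N : ℕ} (H q : ℕ) (hq : 1 ≤ q) (hqH : q ≤ 2 * H + 1) (G : (Fin r × Fin N → ℤ) → ℝ)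
    (hG : Per q G) (hG0 : ∀ c, 0 ≤ G c) :
    ((2 * H + 1 : ℝ) / q - 1) ^ (r * N) * ∑ c ∈ VV (Fin r × Fin N) q, G c ≤ ∑ c ∈ box r N H, G c ∧
      ∑ c ∈ box r N H, G c ≤ ((2 * H + 1 : ℝ) / q + 1) ^ (r * N) * ∑ c ∈ VV (Fin r × Fin N) q, G c := by
  have hq0 : (0 : ℝ) < q := by exact_mod_cast hq
  have h1 : ∑ c ∈ box r N H, G c = ∑ cs ∈ VV (Fin r × Fin N) q, (Bx H q cs).card * G cs := by
    rw [← sum_fiberwise_of_maps_to (g := rs q) (fun c _ => rs_mem q hq c)]
    apply sum_congr rfl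
    intro cs hcs
    rw [Bx_rs H q cs (fun i => by
      rw [mem_VV] at hcs
      exact mem_Ico.2 (hcs i)), ← nsmul_eq_mul]
    rw [← sum_const]
    apply sum_congr rfl
    intro c hc
    rw [mem_filter] at hc
    rw [Per_rs q G hG c, hc.2]
  have hcard : Fintype.card (Fin r × Fin N) = r * N := by
    rw [Fintype.card_prod, Fintype.card_fin, Fintype.card_fin]
  have h0 : 0 ≤ (2 * H + 1 : ℝ) / q - 1 := by
    have : 1 ≤ (2 * H + 1 : ℝ) / q := by
      rw [le_div_iff₀ hq0, one_mul]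
      exact_mod_cast hqH
    linarith
  have h2 : ∀ cs : Fin r × Fin N → ℤ, ((2 * H + 1 : ℝ) / q - 1) ^ (r * N) ≤ ((Bx H q cs).card : ℝ) ∧
      ((Bx H q cs).card : ℝ) ≤ ((2 * H + 1 : ℝ) / q + 1) ^ (r * N) := by
    intro cs
    unfold Bx
    rw [Fintype.card_piFinset]
    push_cast
    have h3 : ∀ y : Fin r × Fin N, (2 * H + 1 : ℝ) / q - 1 ≤
        (((Icc (-(H : ℤ)) H).filter (fun x => (q : ℤ) ∣ x - cs y)).card : ℝ) ∧
        (((Icc (-(H : ℤ)) H).filter (fun x => (q : ℤ) ∣ x - cs y)).card : ℝ) ≤ (2 * H + 1 : ℝ) / q + 1 := by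
      intro y
      have := abs_le.1 (icc_mod H q hq (cs y))
      constructor <;> linarith [this.1, this.2]
    constructor
    · calc ((2 * H + 1 : ℝ) / q - 1) ^ (r * N) = ∏ _y : Fin r × Fin N, ((2 * H + 1 : ℝ) / q - 1) := by
            rw [prod_const, card_univ, hcard]
        _ ≤ _ := prod_le_prod (fun _ _ => h0) (fun y _ => (h3 y).1)
    · calc _ ≤ ∏ _y : Fin r × Fin N, ((2 * H + 1 : ℝ) / q + 1) :=
            prod_le_prod (fun _ _ => Nat.cast_nonneg _) (fun y _ => (h3 y).2)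
        _ = _ := by rw [prod_const, card_univ, hcard]
  rw [h1, mul_sum, mul_sum]
  constructor
  · exact sum_le_sum fun cs _ => mul_le_mul_of_nonneg_right (h2 cs).1 (hG0 cs)
  · exact sum_le_sum fun cs _ => mul_le_mul_of_nonneg_right (h2 cs).2 (hG0 cs)

theorem VV_zmod (p : ℕ) [Fact p.Prime] (g : (ι → ZMod p) → ℝ) :
    ∑ c ∈ VV ι p, g (cz p c) = ∑ c : ι → ZMod p, g c := by
  have hp := (Fact.out : p.Prime)
  apply sum_nbij' (cz p) (fun c => fun y => ((c y).val : ℤ))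
  · intro c _
    exact mem_univ _
  · intro c _
    rw [mem_VV]
    intro y
    refine ⟨Int.natCast_nonneg _, ?_⟩
    exact_mod_cast ZMod.val_lt (c y)
  · intro c hc
    rw [mem_VV] at hc
    funext y
    unfold cz
    rw [ZMod.val_intCast, Int.emod_eq_of_lt (hc y).1 (hc y).2]
  · intro c _
    funext y
    unfold cz
    push_cast
    exact ZMod.natCast_zmod_val (c y)
  · intro c _
    rfl

end Pool.Agent.N913.KS
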