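import Pool.Agent.N913.KS.S11

set_option autoImplicit false
set_option linter.unusedSectionVars false

/-! The tail of the singular product. -/

namespace Pool.Agent.N913.KS

open Finset Polynomial Filter
open Pool.Agent.N913.KT (om SS)
open Pool.Agent.N913.MT (Wz Wz_le Wz_pos dvd_Wz evt_log_pow evt_log_ge)

/-- normalised local factor -/
noncomputable def Xp {r k N : ℕ} (α : Fin k → Fin r) (τ : Fin k → ℤ[X]) (P : Fin r → ℤ[X]) (p : ℕ)
    (c : Fin r × Fin N → ℤ) : ℝ :=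
  (1 - (om (FP α τ (pf P c)) p : ℝ) / p) / (1 - 1 / (p : ℝ)) ^ k

theorem qpos (p : ℕ) (hp : p.Prime) : 0 < 1 - 1 / (p : ℝ) ∧ 1 / 2 ≤ 1 - 1 / (p : ℝ) := by
  have h2 : (2 : ℝ) ≤ p := by exact_mod_cast hp.two_le
  have : 1 / (p : ℝ) ≤ 1 / 2 := by
    apply one_div_le_one_div_of_le <;> linarith
  constructor <;> linarith

theorem Xp_eq {r k N : ℕ} (α : Fin k → Fin r) (τ : Fin k → ℤ[X]) (P : Fin r → ℤ[X]) (p : ℕ)
    (hp : p.Prime) (c : Fin r × Fin N → ℤ) :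
    Xp α τ P p c = (Bp α τ P p (cz p c) : ℝ) * (1 / (p * (1 - 1 / (p : ℝ)) ^ k)) := by
  haveI : Fact p.Prime := ⟨hp⟩
  have hp0 : (0 : ℝ) < p := by exact_mod_cast hp.pos
  have hq := (qpos p hp).1
  unfold Xp
  rw [om_Bp]
  field_simp

theorem Xp_nonneg {r k N : ℕ} (α : Fin k → Fin r) (τ : Fin k → ℤ[X]) (P : Fin r → ℤ[X]) (p : ℕ)
    (hp : p.Prime) (c : Fin r × Fin N → ℤ) : 0 ≤ Xp α τ P p c := by
  rw [Xp_eq α τ P p hp c]
  have hq := (qpos p hp).1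
  positivity

theorem Xp_per {r k N : ℕ} (α : Fin k → Fin r) (τ : Fin k → ℤ[X]) (P : Fin r → ℤ[X]) (p : ℕ)
    (hp : p.Prime) : Per p (fun c : Fin r × Fin N → ℤ => Xp α τ P p c) := by
  intro c c' h
  simp only
  rw [Xp_eq α τ P p hp c, Xp_eq α τ P p hp c']
  have : cz p c = cz p c' := by
    funext y
    unfold cz
    have h1 := (ZMod.intCast_zmod_eq_zero_iff_dvd (c y - c' y) p).2 (h y)
    rw [Int.cast_sub] at h1
    exact sub_eq_zero.1 h1
  rw [this]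

theorem X1 {r k N : ℕ} (α : Fin k → Fin r) (τ : Fin k → ℤ[X]) (P : Fin r → ℤ[X])
    (hN : ∀ a, 2 * (univ.filter (fun i => α i = a)).card ≤ N) (p : ℕ) (hp : p.Prime) :
    (p : ℝ) ^ (r * N) ≤ ∑ c ∈ VV (Fin r × Fin N) p, Xp α τ P p c := by
  haveI : Fact p.Prime := ⟨hp⟩
  have hp0 : (0 : ℝ) < p := by exact_mod_cast hp.pos
  have hq := (qpos p hp).1
  rw [sum_congr rfl (fun c _ => Xp_eq α τ P p hp c), ← sum_mul,
    VV_zmod p (fun c => (Bp α τ P p c : ℝ))]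
  have h := mul_le_mul_of_nonneg_right (mom1 (p := p) α τ P hN)
    (show 0 ≤ 1 / (p * (1 - 1 / (p : ℝ)) ^ k) by positivity)
  refine le_trans (le_of_eq ?_) h
  obtain ⟨q, hqq⟩ : ∃ q, q = 1 - 1 / (p : ℝ) := ⟨_, rfl⟩
  rw [← hqq] at hq ⊢
  have hqk : 0 < q ^ k := by positivity
  field_simp

theorem X2 {r k N : ℕ} (α : Fin k → Fin r) (τ : Fin k → ℤ[X]) (P : Fin r → ℤ[X])
    (hτ : ∀ i, 1 ≤ (τ i).natDegree) (hinj : Function.Injective (fun i => (α i, τ i)))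
    (hN : ∀ a, 2 * (univ.filter (fun i => α i = a)).card ≤ N) (p : ℕ) (hp : p.Prime) (hG : Gp α τ p) :
    ∑ c ∈ VV (Fin r × Fin N) p, Xp α τ P p c ^ 2 ≤
      (p : ℝ) ^ (r * N) * (1 + 6 * k * (k * k * ∑ j, (τ j).natDegree : ℕ) * 4 ^ k / (p : ℝ) ^ 2) := by
  haveI : Fact p.Prime := ⟨hp⟩
  have hp0 : (0 : ℝ) < p := by exact_mod_cast hp.pos
  obtain ⟨hq, hq2⟩ := qpos p hp
  obtain ⟨C1, hC1⟩ : ∃ C1, C1 = k * k * ∑ j, (τ j).natDegree := ⟨_, rfl⟩
  have hm := mom2 (p := p) α τ P hτ hinj hN hG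
  rw [← hC1] at hm ⊢
  obtain ⟨q, hqq⟩ : ∃ q, q = 1 - 1 / (p : ℝ) := ⟨_, rfl⟩
  rw [← hqq] at hm hq hq2
  have e : ∀ c ∈ VV (Fin r × Fin N) p, Xp α τ P p c ^ 2 =
      (Bp α τ P p (cz p c) : ℝ) ^ 2 * (1 / ((p : ℝ) ^ 2 * q ^ (2 * k))) := by
    intro c _
    rw [Xp_eq α τ P p hp c, ← hqq, mul_pow, mul_comm 2 k, pow_mul]
    congr 1
    rw [div_pow, one_pow, mul_pow]
  rw [sum_congr rfl e, ← sum_mul, VV_zmod p (fun c => (Bp α τ P p c : ℝ) ^ 2)]
  have h := mul_le_mul_of_nonneg_right hm (show 0 ≤ 1 / ((p : ℝ) ^ 2 * q ^ (2 * k)) by positivity)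
  refine h.trans ?_
  have h4 : 1 / q ^ (2 * k) ≤ 4 ^ k := by
    rw [div_le_iff₀ (by positivity), pow_mul, ← mul_pow]
    apply one_le_pow₀
    nlinarith
  have e2 : (p : ℝ) ^ (r * N) * ((p : ℝ) ^ 2 * q ^ (2 * k) + 6 * k * C1) * (1 / ((p : ℝ) ^ 2 * q ^ (2 * k))) =
      (p : ℝ) ^ (r * N) * (1 + 6 * k * C1 / (p : ℝ) ^ 2 * (1 / q ^ (2 * k))) := by
    field_simp
  rw [e2]
  apply mul_le_mul_of_nonneg_left _ (by positivity)
  have h5 := mul_le_mul_of_nonneg_left h4 (show 0 ≤ 6 * (k : ℝ) * C1 / (p : ℝ) ^ 2 by positivity)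
  calc 1 + 6 * (k : ℝ) * C1 / (p : ℝ) ^ 2 * (1 / q ^ (2 * k)) ≤
        1 + 6 * (k : ℝ) * C1 / (p : ℝ) ^ 2 * 4 ^ k := by linarith
    _ = _ := by ring

theorem exists_t (v : ℕ) (lam : ℝ) (hlam : 0 < lam) : ∃ t : ℝ, 0 < t ∧ t ≤ 1 ∧
    (1 + t) ^ v * (1 + t) - 2 * (1 - t) ^ v + 1 ≤ lam := by
  have hc : Continuous (fun t : ℝ => (1 + t) ^ v * (1 + t) - 2 * (1 - t) ^ v + 1) := by fun_prop
  have ht : Tendsto (fun t : ℝ => (1 + t) ^ v * (1 + t) - 2 * (1 - t) ^ v + 1) (nhds 0) (nhds 0) :=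
    hc.tendsto' 0 0 (by norm_num)
  obtain ⟨s, hs, h⟩ := Metric.tendsto_nhds_nhds.1 ht lam hlam
  refine ⟨min (s / 2) 1, by positivity, min_le_right _ _, ?_⟩
  have h1 := h (x := min (s / 2) 1) (by
    rw [dist_zero_right, Real.norm_of_nonneg (by positivity)]
    exact (min_le_left _ _).trans_lt (by linarith))
  rw [dist_zero_right, Real.norm_eq_abs] at h1
  exact (le_abs_self _).trans h1.le

theorem tail (r k N : ℕ) (α : Fin k → Fin r) (τ : Fin k → ℤ[X])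
    (hτ : ∀ i, 1 ≤ (τ i).natDegree) (hinj : Function.Injective (fun i => (α i, τ i)))
    (hN : ∀ a, 2 * (univ.filter (fun i => α i = a)).card ≤ N) (ε μ : ℝ) (hε : 0 < ε) (hμ : 0 < μ) :
    ∃ z1 H1 : ℕ, ∀ H : ℕ, H1 ≤ H → ∀ z : ℕ, z1 ≤ z → ∀ y : ℕ, z ≤ y → (y : ℝ) ≤ Real.log H / 2 →
      ∀ P : Fin r → ℤ[X],
      (((box r N H).filter (fun c =>
        ε ≤ |∏ p ∈ (Ico z y).filter Nat.Prime, Xp α τ P p c - 1|)).card : ℝ) ≤
        μ * (2 * H + 1) ^ (r * N) := by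
  classical
  obtain ⟨v, hv⟩ : ∃ v, v = r * N := ⟨_, rfl⟩
  obtain ⟨t, ht0, ht1, ht⟩ := exists_t v (μ * ε ^ 2) (by positivity)
  obtain ⟨C, hC⟩ : ∃ C : ℝ, C = 6 * k * (k * k * ∑ j, (τ j).natDegree : ℕ) * 4 ^ k := ⟨_, rfl⟩
  have hC0 : 0 ≤ C := by rw [hC]; positivity
  obtain ⟨p0, hp0⟩ := Gp_evt α τ hτ
  obtain ⟨H1, hH1⟩ := eventually_atTop.1 (((tendsto_natCast_atTop_atTop (R := ℝ)).eventually
    ((tendsto_rpow_atTop (show (0 : ℝ) < 3 / 10 by norm_num)).eventually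
      (eventually_ge_atTop (1 / t)))).and (eventually_ge_atTop 3))
  refine ⟨p0 + ⌈2 * C / Real.log (1 + t)⌉₊ + 1, H1, fun H hH z hz y hzy hy P => ?_⟩
  obtain ⟨g1, g2⟩ := hH1 H hH
  have hH3 : (3 : ℝ) ≤ H := by exact_mod_cast g2
  have hH0 : (0 : ℝ) < H := by linarith
  obtain ⟨S, hS⟩ : ∃ S, S = (Ico z y).filter Nat.Prime := ⟨_, rfl⟩
  have hSp : ∀ p ∈ S, p.Prime := fun p hp => by rw [hS] at hp; exact (mem_filter.1 hp).2
  have hSz : ∀ p ∈ S, z ≤ p ∧ p < y := fun p hp => by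
    rw [hS] at hp; exact mem_Ico.1 (mem_filter.1 hp).1
  have hlt : 0 < Real.log (1 + t) := Real.log_pos (by linarith)
  have hz0 : (0 : ℝ) < z := by
    have : 1 ≤ z := by omega
    exact_mod_cast this
  have hz2 : 2 * C / Real.log (1 + t) ≤ z := by
    refine (Nat.le_ceil _).trans ?_
    exact_mod_cast (show ⌈2 * C / Real.log (1 + t)⌉₊ ≤ z by omega)
  obtain ⟨q, hq⟩ : ∃ q, q = ∏ p ∈ S, p := ⟨_, rfl⟩
  have hq1 : 1 ≤ q := by
    rw [hq]
    have : 0 < ∏ p ∈ S, p := prod_pos fun p hp => (hSp p hp).pos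
    exact this
  have hq0 : (0 : ℝ) < q := by exact_mod_cast hq1
  have hqW : q ≤ Wz y := by
    rw [hq]
    unfold Wz
    apply prod_le_prod_of_subset_of_one_le'
    · intro p hp
      rw [mem_filter, mem_range]
      exact ⟨(hSz p hp).2, hSp p hp⟩
    · intro p hp _
      exact (mem_filter.1 hp).2.one_lt.le
  have hqH : (q : ℝ) ≤ (H : ℝ) ^ (7 / 10 : ℝ) := by
    have h1 : (q : ℝ) ≤ (4 : ℝ) ^ y := by exact_mod_cast hqW.trans (Wz_le y)
    have h3 : (4 : ℝ) ^ y = Real.exp (y * Real.log 4) := by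
      rw [mul_comm, Real.exp_mul, Real.exp_log (by norm_num), Real.rpow_natCast]
    have h4 : Real.log 4 ≤ 14 / 10 := by
      have : Real.log 4 = 2 * Real.log 2 := by
        rw [show (4 : ℝ) = 2 ^ 2 by norm_num, Real.log_pow]; norm_num
      rw [this]
      have := Real.log_two_lt_d9
      linarith
    have h6 : 0 ≤ Real.log 4 := Real.log_nonneg (by norm_num)
    have hlH : 0 ≤ Real.log H := Real.log_nonneg (by linarith)
    have h5 : (y : ℝ) * Real.log 4 ≤ Real.log H * (7 / 10) := by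
      have := mul_le_mul hy h4 h6 (by linarith)
      linarith
    rw [h3] at h1
    refine h1.trans ((Real.exp_le_exp.2 h5).trans (le_of_eq ?_))
    rw [Real.exp_mul, Real.exp_log hH0]
  obtain ⟨M, hM⟩ : ∃ M : ℝ, M = 2 * H + 1 := ⟨_, rfl⟩
  have hM0 : 0 < M := by rw [hM]; positivity
  have hqM : (q : ℝ) ≤ t * M := by
    have h1 : (1 : ℝ) ≤ t * (H : ℝ) ^ (3 / 10 : ℝ) := by
      rw [div_le_iff₀ ht0] at g1
      linarith
    have h2 : (H : ℝ) ^ (7 / 10 : ℝ) * (H : ℝ) ^ (3 / 10 : ℝ) = H := by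
      rw [← Real.rpow_add hH0]; norm_num
    have h3 : 0 ≤ (H : ℝ) ^ (7 / 10 : ℝ) := by positivity
    calc (q : ℝ) ≤ (H : ℝ) ^ (7 / 10 : ℝ) * 1 := by linarith
      _ ≤ (H : ℝ) ^ (7 / 10 : ℝ) * (t * (H : ℝ) ^ (3 / 10 : ℝ)) := mul_le_mul_of_nonneg_left h1 h3
      _ = t * ((H : ℝ) ^ (7 / 10 : ℝ) * (H : ℝ) ^ (3 / 10 : ℝ)) := by ring
      _ = t * H := by rw [h2]
      _ ≤ t * M := by
          apply mul_le_mul_of_nonneg_left _ ht0.le
          rw [hM]; linarith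
  have hqMn : q ≤ 2 * H + 1 := by
    have h1 : (q : ℝ) ≤ M := by
      refine hqM.trans ?_
      calc t * M ≤ 1 * M := mul_le_mul_of_nonneg_right ht1 hM0.le
        _ = M := one_mul _
    have h2 : (q : ℝ) ≤ ((2 * H + 1 : ℕ) : ℝ) := by push_cast; rw [← hM]; exact h1
    exact_mod_cast h2
  obtain ⟨Yf, hYf⟩ : ∃ Yf : (Fin r × Fin N → ℤ) → ℝ, Yf = fun c => ∏ p ∈ S, Xp α τ P p c := ⟨_, rfl⟩
  have hY0 : ∀ c, 0 ≤ Yf c := fun c => by
    rw [hYf]; exact prod_nonneg fun p hp => Xp_nonneg α τ P p (hSp p hp) c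
  have hPer1 : Per q Yf := by
    intro c c' h
    rw [hYf]
    simp only
    apply prod_congr rfl
    intro p hp
    apply Xp_per α τ P p (hSp p hp)
    intro x
    exact dvd_trans (by rw [hq]; exact_mod_cast dvd_prod_of_mem (fun p => p) hp) (h x)
  have hPer2 : Per q (fun c => Yf c ^ 2) := by
    intro c c' h
    simp only
    rw [hPer1 c c' h]
  have hVV1 : (q : ℝ) ^ v ≤ ∑ c ∈ VV (Fin r × Fin N) q, Yf c := by
    rw [hYf, hq, crtv_prod S (fun p c => Xp α τ P p c) hSp (fun p hp => Xp_per α τ P p (hSp p hp)), hv]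
    push_cast
    rw [← prod_pow]
    exact Finset.prod_le_prod (fun _ _ => by positivity) (fun p hp => X1 α τ P hN p (hSp p hp))
  have hVV2 : ∑ c ∈ VV (Fin r × Fin N) q, Yf c ^ 2 ≤ (q : ℝ) ^ v * (1 + t) := by
    have e : ∀ c : Fin r × Fin N → ℤ, Yf c ^ 2 = ∏ p ∈ S, Xp α τ P p c ^ 2 := by
      intro c
      rw [hYf, ← prod_pow]
    rw [sum_congr rfl (fun c _ => e c)]
    have h1 := crtv_prod (ι := Fin r × Fin N) S (fun p c => Xp α τ P p c ^ 2) hSp (fun p hp => by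
      intro c c' h
      have h5 : Xp α τ P p c = Xp α τ P p c' := Xp_per α τ P p (hSp p hp) c c' h
      simp only
      rw [h5])
    rw [← hq] at h1
    rw [h1]
    have h2 : ∏ p ∈ S, ∑ c ∈ VV (Fin r × Fin N) p, Xp α τ P p c ^ 2 ≤
        ∏ p ∈ S, ((p : ℝ) ^ v * (1 + C / (p : ℝ) ^ 2)) := by
      apply Finset.prod_le_prod
      · intro p _
        exact sum_nonneg fun c _ => sq_nonneg _
      · intro p hp
        rw [hC, hv]
        exact X2 α τ P hτ hinj hN p (hSp p hp) (hp0 p (by have := (hSz p hp).1; omega))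
    refine h2.trans ?_
    rw [prod_mul_distrib, prod_pow]
    have h3 : ∏ p ∈ S, (p : ℝ) = q := by rw [hq]; push_cast; rfl
    rw [h3]
    apply mul_le_mul_of_nonneg_left _ (by positivity)
    have h4 : ∏ p ∈ S, (1 + C / (p : ℝ) ^ 2) ≤ Real.exp (∑ p ∈ S, C / (p : ℝ) ^ 2) := by
      rw [Real.exp_sum]
      apply Finset.prod_le_prod (fun p _ => by positivity)
      intro p _
      have := Real.add_one_le_exp (C / (p : ℝ) ^ 2)
      linarith
    have h5 : ∑ p ∈ S, C / (p : ℝ) ^ 2 ≤ 2 * C / z := by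
      have h6 : ∑ p ∈ S, ((p : ℝ) ^ 2)⁻¹ ≤ 2 / z := by
        obtain ⟨z', hz'⟩ : ∃ z', z = z' + 1 := ⟨z - 1, by omega⟩
        have h7 := sum_Ioo_inv_sq_le (α := ℝ) z' y
        have h8 : ∑ p ∈ S, ((p : ℝ) ^ 2)⁻¹ ≤ ∑ i ∈ Ioo z' y, ((i : ℝ) ^ 2)⁻¹ := by
          apply sum_le_sum_of_subset_of_nonneg
          · intro p hp
            have := hSz p hp
            rw [mem_Ioo]
            omega
          · intro _ _ _
            positivity
        refine h8.trans (h7.trans (le_of_eq ?_))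
        rw [hz']
        push_cast
        rfl
      calc ∑ p ∈ S, C / (p : ℝ) ^ 2 = C * ∑ p ∈ S, ((p : ℝ) ^ 2)⁻¹ := by
            rw [mul_sum]; rfl
        _ ≤ C * (2 / z) := mul_le_mul_of_nonneg_left h6 hC0
        _ = _ := by ring
    have h9 : 2 * C / z ≤ Real.log (1 + t) := by
      rw [div_le_iff₀ hlt] at hz2
      rw [div_le_iff₀ hz0]
      linarith
    calc _ ≤ Real.exp (∑ p ∈ S, C / (p : ℝ) ^ 2) := h4
      _ ≤ Real.exp (Real.log (1 + t)) := Real.exp_le_exp.2 (h5.trans h9)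
      _ = 1 + t := Real.exp_log (by linarith)
  have hb1 := (box_avg (r := r) (N := N) H q hq1 hqMn Yf hPer1 hY0).1
  have hb2 := (box_avg (r := r) (N := N) H q hq1 hqMn (fun c => Yf c ^ 2) hPer2 (fun c => sq_nonneg _)).2
  rw [← hM, ← hv] at hb1 hb2
  have hMq : 0 ≤ M / q - 1 := by
    have : 1 ≤ M / q := by
      rw [le_div_iff₀ hq0, one_mul]
      have : (q : ℝ) ≤ ((2 * H + 1 : ℕ) : ℝ) := by exact_mod_cast hqMn
      push_cast at this
      rw [hM]; exact this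
    linarith
  have hs1 : M ^ v * (1 - t) ^ v ≤ ∑ c ∈ box r N H, Yf c := by
    refine le_trans ?_ ((mul_le_mul_of_nonneg_left hVV1 (pow_nonneg hMq v)).trans hb1)
    rw [← mul_pow, ← mul_pow]
    apply pow_le_pow_left₀
    · have : 0 ≤ 1 - t := by linarith
      positivity
    · have e : (M / q - 1) * q = M - q := by field_simp
      rw [e]
      linarith
  have hs2 : ∑ c ∈ box r N H, Yf c ^ 2 ≤ M ^ v * ((1 + t) ^ v * (1 + t)) := by
    refine (hb2.trans (mul_le_mul_of_nonneg_left hVV2 (by positivity))).trans ?_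
    have e : (M / q + 1) ^ v * ((q : ℝ) ^ v * (1 + t)) = ((M / q + 1) * q) ^ v * (1 + t) := by
      rw [mul_pow]; ring
    have e2 : M ^ v * ((1 + t) ^ v * (1 + t)) = (M * (1 + t)) ^ v * (1 + t) := by
      rw [mul_pow]; ring
    rw [e, e2]
    apply mul_le_mul_of_nonneg_right _ (by linarith)
    apply pow_le_pow_left₀ (by positivity)
    have e3 : (M / q + 1) * q = M + q := by field_simp
    rw [e3]
    linarith
  have hcard : ((box r N H).card : ℝ) = M ^ v := by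
    rw [box_card, hM, hv]; push_cast; ring
  have hvar : ∑ c ∈ box r N H, (Yf c - 1) ^ 2 ≤ μ * ε ^ 2 * M ^ v := by
    have e : ∑ c ∈ box r N H, (Yf c - 1) ^ 2 = ∑ c ∈ box r N H, Yf c ^ 2 -
        2 * ∑ c ∈ box r N H, Yf c + (box r N H).card := by
      rw [mul_sum, ← sum_sub_distrib, ← nsmul_one, ← sum_const, ← sum_add_distrib]
      apply sum_congr rfl
      intro c _
      ring
    rw [e, hcard]
    have h1 := mul_le_mul_of_nonneg_left ht (show 0 ≤ M ^ v by positivity)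
    calc _ ≤ M ^ v * ((1 + t) ^ v * (1 + t)) - 2 * (M ^ v * (1 - t) ^ v) + M ^ v := by linarith
      _ = M ^ v * ((1 + t) ^ v * (1 + t) - 2 * (1 - t) ^ v + 1) := by ring
      _ ≤ _ := by linarith
  have hcheb : (((box r N H).filter (fun c => ε ≤ |Yf c - 1|)).card : ℝ) * ε ^ 2 ≤ μ * ε ^ 2 * M ^ v := by
    refine le_trans ?_ hvar
    have h1 : (((box r N H).filter (fun c => ε ≤ |Yf c - 1|)).card : ℝ) * ε ^ 2 ≤
        ∑ c ∈ (box r N H).filter (fun c => ε ≤ |Yf c - 1|), (Yf c - 1) ^ 2 := by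
      rw [← nsmul_eq_mul]
      apply card_nsmul_le_sum
      intro c hc
      rw [← sq_abs (Yf c - 1)]
      exact pow_le_pow_left₀ hε.le (mem_filter.1 hc).2 2
    exact h1.trans (sum_le_sum_of_subset_of_nonneg (filter_subset _ _) (fun _ _ _ => sq_nonneg _))
  have hfin : (((box r N H).filter (fun c => ε ≤ |Yf c - 1|)).card : ℝ) ≤ μ * M ^ v := by
    have hε2 : 0 < ε ^ 2 := by positivity
    have h1 : (((box r N H).filter (fun c => ε ≤ |Yf c - 1|)).card : ℝ) * ε ^ 2 ≤ (μ * M ^ v) * ε ^ 2 := by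
      linarith
    exact le_of_mul_le_mul_right h1 hε2
  rw [← hS, ← hM, ← hv]
  rw [hYf] at hfin
  exact hfin

end Pool.Agent.N913.KS
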