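import Pool.Agent.N913.KS.S1
import Pool.Agent.N913.KT.T2

set_option autoImplicit false
set_option linter.unusedSectionVars false

/-! Several polynomials: averages over one coordinate of the Newton form. -/

namespace Pool.Agent.N913.KS

open Finset Polynomial
open Pool.Agent.N913.MT (th th_nonneg th_le)
open Pool.Agent.N913.MG (BVz AP1)
open Pool.Agent.N913.KT (pol one cop_class)

/-- a block of coefficients -/
def blk {r N : ℕ} (c : Fin r × Fin N → ℤ) (a : Fin r) : Fin N → ℤ := fun i => c (a, i)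

/-- the value at a position: a polynomial and an argument -/
noncomputable def ev {r N : ℕ} (P : Fin r → ℤ[X]) (c : Fin r × Fin N → ℤ) (s : Fin r × ℤ) : ℤ :=
  (pol (P s.1) (blk c s.1)).eval s.2

/-- the earlier positions in the same block -/
def prv {r : ℕ} (s : ℕ → Fin r × ℤ) (m : ℕ) : Finset ℕ := (range m).filter (fun l => (s l).1 = (s m).1)

/-- Newton basis -/
noncomputable def Nw (t : ℕ → ℤ) (F : Finset ℕ) : ℤ[X] := ∏ l ∈ F, (X - C (t l))

/-- the determinant factor -/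
def Dl {r : ℕ} (s : ℕ → Fin r × ℤ) (m : ℕ) : ℤ := ∏ l ∈ prv s m, ((s m).2 - (s l).2)

theorem Nw_eval (t : ℕ → ℤ) (F : Finset ℕ) (x : ℤ) : (Nw t F).eval x = ∏ l ∈ F, (x - t l) := by
  unfold Nw
  rw [eval_prod]
  apply prod_congr rfl
  intro l _
  rw [eval_sub, eval_X, eval_C]

theorem Nw_deg (t : ℕ → ℤ) (F : Finset ℕ) : (Nw t F).natDegree = F.card := by
  unfold Nw
  rw [natDegree_finsetProd_X_sub_C_eq_card]

theorem Nw_coeff (t : ℕ → ℤ) (T : ℕ) (F : Finset ℕ) : (∀ l ∈ F, |t l| ≤ T) → ∀ i,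
    |(Nw t F).coeff i| ≤ (1 + (T : ℤ)) ^ F.card := by
  classical
  induction F using Finset.induction_on with
  | empty =>
    intro _ i
    unfold Nw
    rw [prod_empty, coeff_one, card_empty, pow_zero]
    split_ifs <;> simp
  | insert m F hm ih =>
    intro ht i
    have ih' := ih (fun l hl => ht l (mem_insert_of_mem hl))
    have htm := ht m (mem_insert_self _ _)
    have e : Nw t (insert m F) = Nw t F * (X - C (t m)) := by
      unfold Nw
      rw [prod_insert hm, mul_comm]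
    have hT0 : (0 : ℤ) ≤ T := Int.natCast_nonneg _
    rw [e, card_insert_of_notMem hm]
    cases i with
    | zero =>
      rw [mul_coeff_zero, coeff_sub, coeff_X_zero, coeff_C_zero, zero_sub, mul_neg, abs_neg, abs_mul]
      calc |(Nw t F).coeff 0| * |t m| ≤ (1 + (T : ℤ)) ^ F.card * T :=
            mul_le_mul (ih' 0) htm (abs_nonneg _) (by positivity)
        _ ≤ (1 + (T : ℤ)) ^ F.card * (1 + T) := mul_le_mul_of_nonneg_left (by linarith) (by positivity)
        _ = _ := by rw [pow_succ]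
    | succ i =>
      rw [coeff_mul_X_sub_C]
      calc |(Nw t F).coeff i - (Nw t F).coeff (i + 1) * t m| ≤
            |(Nw t F).coeff i| + |(Nw t F).coeff (i + 1) * t m| := abs_sub _ _
        _ ≤ (1 + (T : ℤ)) ^ F.card + (1 + (T : ℤ)) ^ F.card * T := by
            apply add_le_add (ih' i)
            rw [abs_mul]
            exact mul_le_mul (ih' _) htm (abs_nonneg _) (by positivity)
        _ = _ := by rw [pow_succ]; ring

/-- the shift vector -/
noncomputable def sv {r : ℕ} (N : ℕ) (s : ℕ → Fin r × ℤ) (m : ℕ) (w : ℤ) : Fin r × Fin N → ℤ :=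
  fun x => if x.1 = (s m).1 then w * (Nw (fun l => (s l).2) (prv s m)).coeff x.2 else 0

theorem pol_add {N : ℕ} (P : ℤ[X]) (c : Fin N → ℤ) (q : ℤ[X]) (hq : q.natDegree < N) (w : ℤ) :
    pol P (fun i => c i + w * q.coeff i) = pol P c + C w * q := by
  unfold pol
  rw [add_assoc]
  congr 1
  have h1 : C w * q = ∑ i : Fin N, C (w * q.coeff i) * X ^ (i : ℕ) := by
    conv_lhs => rw [as_sum_range' q N hq]
    rw [mul_sum, ← Fin.sum_univ_eq_sum_range (fun i => C w * monomial i (q.coeff i))]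
    apply sum_congr rfl
    intro i _
    rw [← C_mul_X_pow_eq_monomial, C_mul, mul_assoc]
  rw [h1, ← sum_add_distrib]
  apply sum_congr rfl
  intro i _
  rw [C_add, add_mul]

theorem ev_shift {r N : ℕ} (P : Fin r → ℤ[X]) (c : Fin r × Fin N → ℤ) (s : ℕ → Fin r × ℤ) (m : ℕ)
    (hm : (prv s m).card < N) (w : ℤ) (x : Fin r × ℤ) :
    ev P (c + sv N s m w) x = if x.1 = (s m).1 then
      ev P c x + w * (Nw (fun l => (s l).2) (prv s m)).eval x.2 else ev P c x := by
  unfold ev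
  by_cases h : x.1 = (s m).1
  · rw [if_pos h]
    have e : blk (c + sv N s m w) x.1 =
        fun i => blk c x.1 i + w * (Nw (fun l => (s l).2) (prv s m)).coeff i := by
      funext i
      unfold blk sv
      rw [Pi.add_apply, if_pos h]
    rw [e, pol_add _ _ _ (by rw [Nw_deg]; exact hm), eval_add, eval_mul, eval_C]
  · rw [if_neg h]
    have e : blk (c + sv N s m w) x.1 = blk c x.1 := by
      funext i
      unfold blk sv
      rw [Pi.add_apply, if_neg h, add_zero]
    rw [e]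

/-- the weights -/
noncomputable def Fw {r N : ℕ} (P : Fin r → ℤ[X]) (R : ℕ) (s : ℕ → Fin r × ℤ) (m : ℕ)
    (c : Fin r × Fin N → ℤ) : ℝ := ∏ j ∈ range m, th R (ev P c (s j)).natAbs

theorem Fw_nonneg {r N : ℕ} (P : Fin r → ℤ[X]) (R : ℕ) (s : ℕ → Fin r × ℤ) (m : ℕ)
    (c : Fin r × Fin N → ℤ) : 0 ≤ Fw P R s m c := prod_nonneg fun _ _ => th_nonneg _ _

theorem Fw_shift {r N : ℕ} (P : Fin r → ℤ[X]) (R : ℕ) (s : ℕ → Fin r × ℤ) (m : ℕ)
    (hm : (prv s m).card < N) (c : Fin r × Fin N → ℤ) (w : ℤ) :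
    Fw P R s (m + 1) (c + sv N s m w) =
      Fw P R s m c * th R (ev P c (s m) + w * Dl s m).natAbs := by
  unfold Fw
  rw [prod_range_succ]
  congr 1
  · apply prod_congr rfl
    intro j hj
    rw [ev_shift P c s m hm w]
    split_ifs with h
    · rw [Nw_eval, prod_eq_zero (i := j), mul_zero, add_zero]
      · unfold prv
        rw [mem_filter]
        exact ⟨hj, h⟩
      · exact sub_self _
    · rfl
  · rw [ev_shift P c s m hm w, if_pos rfl, Nw_eval]
    rfl

theorem ev_cop {r N : ℕ} (P : Fin r → ℤ[X]) (c c' : Fin r × Fin N → ℤ) (W : ℕ)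
    (h : ∀ i, (W : ℤ) ∣ c i - c' i) (x : Fin r × ℤ) :
    (ev P c x).natAbs.Coprime W ↔ (ev P c' x).natAbs.Coprime W :=
  cop_class (P x.1) (blk c x.1) (blk c' x.1) W (fun i => h (x.1, i)) x.2

theorem Dl_ne {r : ℕ} (s : ℕ → Fin r × ℤ) (m : ℕ) (hinj : ∀ l < m, s l ≠ s m) : Dl s m ≠ 0 := by
  unfold Dl
  rw [prod_ne_zero_iff]
  intro l hl
  unfold prv at hl
  rw [mem_filter, mem_range] at hl
  intro h0
  apply hinj l hl.1
  exact Prod.ext hl.2 (by linarith)

theorem Dl_le {r : ℕ} (s : ℕ → Fin r × ℤ) (m T N : ℕ) (hT1 : 1 ≤ T) (hT : ∀ l ≤ m, |(s l).2| ≤ T)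
    (hN : (prv s m).card ≤ N) : (Dl s m).natAbs ≤ (2 * T) ^ N := by
  have h : |Dl s m| ≤ ((2 * T : ℕ) : ℤ) ^ (prv s m).card := by
    unfold Dl
    rw [abs_prod]
    refine (prod_le_prod (fun _ _ => abs_nonneg _) (g := fun _ => ((2 * T : ℕ) : ℤ)) ?_).trans
      (le_of_eq ?_)
    · intro l hl
      unfold prv at hl
      rw [mem_filter, mem_range] at hl
      have h1 := hT l hl.1.le
      have h2 := hT m le_rfl
      have h3 := abs_sub (s m).2 (s l).2
      push_cast
      linarith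
    · rw [prod_const]
  have h2 : (((Dl s m).natAbs : ℕ) : ℤ) ≤ (((2 * T) ^ (prv s m).card : ℕ) : ℤ) := by
    rw [Int.natCast_natAbs]; push_cast at h ⊢; exact h
  have h3 : (Dl s m).natAbs ≤ (2 * T) ^ (prv s m).card := by exact_mod_cast h2
  exact h3.trans (Nat.pow_le_pow_right (by omega) hN)

theorem prime_Dl {r : ℕ} (s : ℕ → Fin r × ℤ) (m T : ℕ) (hT : ∀ l ≤ m, |(s l).2| ≤ T)
    (hinj : ∀ l < m, s l ≠ s m) (p : ℕ) (hp : p.Prime) (h : p ∣ (Dl s m).natAbs) :
    p ≤ 2 * T ∧ ∃ l < m, (s l).1 = (s m).1 ∧ (p : ℤ) ∣ (s m).2 - (s l).2 := by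
  have h1 : (p : ℤ) ∣ Dl s m := Int.natCast_dvd.2 h
  unfold Dl at h1
  obtain ⟨l, hl, h2⟩ := (Prime.dvd_finsetProd_iff (Nat.prime_iff_prime_int.1 hp) _).1 h1
  unfold prv at hl
  rw [mem_filter, mem_range] at hl
  refine ⟨?_, l, hl.1, hl.2, h2⟩
  have h3 := hT l hl.1.le
  have h4 := hT m le_rfl
  have h5 : |(s m).2 - (s l).2| ≤ 2 * T := (abs_sub _ _).trans (by linarith)
  have h6 : (s m).2 - (s l).2 ≠ 0 := by
    intro h0
    exact hinj l hl.1 (Prod.ext hl.2 (by linarith))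
  have h7 := Int.le_of_dvd (abs_pos.2 h6) ((dvd_abs _ _).2 h2)
  have h8 : (p : ℤ) ≤ ((2 * T : ℕ) : ℤ) := by push_cast; linarith
  exact_mod_cast h8

/-- averaging over one coordinate -/
theorem step {r N : ℕ} (P : Fin r → ℤ[X]) (R Y : ℕ) (M : ℕ → ℝ) (hM : BVz R Y M) (hM0 : ∀ q, 0 ≤ M q)
    (W : ℕ) (hW : 1 ≤ W) (H σ U T : ℕ) (hU : 1 ≤ U) (hT1 : 1 ≤ T) (cs : Fin r × Fin N → ℤ)
    (s : ℕ → Fin r × ℤ) (m : ℕ) (hm : (prv s m).card < N)
    (hT : ∀ l ≤ m, |(s l).2| ≤ T) (hinj : ∀ l < m, s l ≠ s m)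
    (hWR : ∀ p : ℕ, p.Prime → p ∣ W → p ≤ R) (hTR : 2 * T ≤ R)
    (hcl : (ev P cs (s m)).natAbs.Coprime W)
    (hσ : W * U * (1 + T) ^ N ≤ σ)
    (hY : ∀ c : Fin r × Fin N → ℤ, (∀ i, |c i| ≤ H + σ) → ∀ x : Fin r × ℤ, |x.2| ≤ T →
      |ev P c x| + (W * (2 * T) ^ N * U : ℕ) + 1 ≤ Y) :
    |∑ c ∈ Bx H W cs, Fw P R s (m + 1) c -
      (((W * (Dl s m).natAbs : ℕ) : ℝ) / Nat.totient (W * (Dl s m).natAbs)) *
        ∑ c ∈ Bx H W cs, Fw P R s m c| ≤
      2 * M (W * (Dl s m).natAbs) / U * ∑ c ∈ Bx H W cs, Fw P R s m c +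
        Real.log Y ^ (m + 1) * (strip H W σ cs).card := by
  have hΔ := Dl_ne s m hinj
  have hΔle := Dl_le s m T N hT1 hT hm.le
  have hU0 : (0 : ℝ) < U := by exact_mod_cast hU
  obtain ⟨ρ, hρ⟩ : ∃ ρ : ℝ, ρ = ((W * (Dl s m).natAbs : ℕ) : ℝ) / Nat.totient (W * (Dl s m).natAbs) :=
    ⟨_, rfl⟩
  rw [← hρ]
  obtain ⟨L, hL⟩ : ∃ L, L = Real.log Y := ⟨_, rfl⟩
  rw [← hL]
  have hL0 : 0 ≤ L := by rw [hL]; exact Real.log_natCast_nonneg Y
  -- bounds
  have hbd : ∀ c : Fin r × Fin N → ℤ, (∀ i, |c i| ≤ H + σ) → Fw P R s (m + 1) c ≤ L ^ (m + 1) := by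
    intro c hc
    unfold Fw
    refine (prod_le_prod (fun _ _ => th_nonneg _ _) (g := fun _ => L) ?_).trans (le_of_eq ?_)
    · intro j hj
      rw [hL]
      apply th_le
      have h1 := hY c hc (s j) (hT j (by have := mem_range.1 hj; omega))
      have h2 : (0 : ℤ) ≤ ((W * (2 * T) ^ N * U : ℕ) : ℤ) := by positivity
      have h3 : (((ev P c (s j)).natAbs : ℕ) : ℤ) ≤ Y := by
        rw [Int.natCast_natAbs]; linarith
      exact_mod_cast h3
    · rw [prod_const, card_range]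
  -- translations
  have h1 : ∀ u ∈ range U, |∑ c ∈ Bx H W cs, Fw P R s (m + 1) (c + sv N s m (W * u)) -
      ∑ c ∈ Bx H W cs, Fw P R s (m + 1) c| ≤ L ^ (m + 1) * (strip H W σ cs).card := by
    intro u hu
    rw [mem_range] at hu
    have hsσ : ∀ i, |sv N s m (W * u) i| ≤ σ := by
      intro i
      unfold sv
      split_ifs
      · rw [abs_mul]
        have h2 := Nw_coeff (fun l => (s l).2) T (prv s m) (fun l hl => by
          unfold prv at hl
          rw [mem_filter, mem_range] at hl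
          exact hT l hl.1.le) i.2
        have h2' : (1 + (T : ℤ)) ^ (prv s m).card ≤ (1 + (T : ℤ)) ^ N :=
          pow_le_pow_right₀ (by linarith [Int.natCast_nonneg T]) hm.le
        have h3 : |(W : ℤ) * u| ≤ W * U := by
          rw [abs_of_nonneg (by positivity)]
          exact mul_le_mul_of_nonneg_left (by exact_mod_cast hu.le) (by positivity)
        calc |(W : ℤ) * u| * |(Nw (fun l => (s l).2) (prv s m)).coeff i.2| ≤
              (W * U) * (1 + (T : ℤ)) ^ N :=
              mul_le_mul h3 (h2.trans h2') (abs_nonneg _) (by positivity)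
          _ = ((W * U * (1 + T) ^ N : ℕ) : ℤ) := by push_cast; ring
          _ ≤ σ := by exact_mod_cast hσ
      · rw [abs_zero]; positivity
    apply transl H W σ cs (sv N s m (W * u)) (fun i => by
      unfold sv
      split_ifs
      · exact Dvd.dvd.mul_right (Dvd.intro _ rfl) _
      · exact dvd_zero _)
      hsσ _ (fun c => Fw_nonneg P R s (m + 1) c)
    · intro c hc
      rw [mem_Bx] at hc
      apply hbd
      intro i
      rw [Pi.add_apply]
      have := abs_add_le (c i) (sv N s m (W * u) i)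
      linarith [(hc i).1, hsσ i]
    · intro c hc
      rw [mem_Bx] at hc
      apply hbd
      intro i
      have : (0 : ℤ) ≤ σ := Int.natCast_nonneg _
      linarith [(hc i).1]
  -- the inner sums
  have h2 : ∀ c ∈ Bx H W cs, |∑ u ∈ range U, Fw P R s (m + 1) (c + sv N s m (W * u)) -
      U * ρ * Fw P R s m c| ≤ 2 * M (W * (Dl s m).natAbs) * Fw P R s m c := by
    intro c hc
    rw [mem_Bx] at hc
    have e1 : ∑ u ∈ range U, Fw P R s (m + 1) (c + sv N s m (W * u)) =
        Fw P R s m c * ∑ u ∈ range U, th R (ev P c (s m) + W * u * Dl s m).natAbs := by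
      rw [mul_sum]
      exact sum_congr rfl fun u _ => Fw_shift P R s m hm c _
    by_cases h0 : Fw P R s m c = 0
    · rw [e1, h0]; simp
    · have hF0 := Fw_nonneg P R s m c
      have hpr : ∀ l < m, (ev P c (s l)).natAbs.Prime ∧ R < (ev P c (s l)).natAbs := by
        intro l hl
        unfold Fw at h0
        change _ ≠ _ at h0
        rw [prod_ne_zero_iff] at h0
        have h3 := h0 l (mem_range.2 hl)
        unfold th at h3
        by_contra hcon
        exact h3 (if_neg hcon)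
      have hcop : (ev P c (s m)).natAbs.Coprime (W * (Dl s m).natAbs) := by
        apply Nat.Coprime.mul_right
        · exact (ev_cop P c cs W (fun i => (hc i).2) (s m)).2 hcl
        · rw [Nat.coprime_iff_gcd_eq_one]
          by_contra hne
          obtain ⟨p, hp, hpd⟩ := Nat.exists_prime_and_dvd hne
          have g1 := hpd.trans (Nat.gcd_dvd_left _ _)
          have g2 := hpd.trans (Nat.gcd_dvd_right _ _)
          obtain ⟨g3, l, hl, hbl, g4⟩ := prime_Dl s m T hT hinj p hp g2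
          have g5 : (p : ℤ) ∣ ev P c (s m) - ev P c (s l) := by
            unfold ev
            rw [hbl]
            exact g4.trans (sub_dvd_eval_sub _ _ _)
          have g6 : (p : ℤ) ∣ ev P c (s m) := Int.natCast_dvd.2 g1
          have g7 : (p : ℤ) ∣ ev P c (s l) := by
            have := dvd_sub g6 g5
            simpa using this
          have g8 := Int.natCast_dvd.1 g7
          have g9 := (Nat.prime_dvd_prime_iff_eq hp (hpr l hl).1).1 g8
          have g10 := (hpr l hl).2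
          omega
      have hYc := hY c (fun i => by
        have : (0 : ℤ) ≤ σ := Int.natCast_nonneg _
        linarith [(hc i).1]) (s m) (hT m le_rfl)
      have h3 := one R Y M hM hM0 W hW (Dl s m) hΔ (by
        intro p hp hpd
        rcases (Nat.Prime.dvd_mul hp).1 hpd with g | g
        · exact hWR p hp g
        · exact (prime_Dl s m T hT hinj p hp g).1.trans hTR) (ev P c (s m)) U (by
        refine le_trans ?_ hYc
        have : W * (Dl s m).natAbs * U ≤ W * (2 * T) ^ N * U := by gcongr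
        have h5 : ((W * (Dl s m).natAbs * U : ℕ) : ℤ) ≤ ((W * (2 * T) ^ N * U : ℕ) : ℤ) := by
          exact_mod_cast this
        linarith) hcop
      rw [← hρ] at h3
      rw [e1]
      have e2 : Fw P R s m c * ∑ u ∈ range U, th R (ev P c (s m) + W * u * Dl s m).natAbs -
          U * ρ * Fw P R s m c = Fw P R s m c *
          (∑ u ∈ range U, th R (ev P c (s m) + W * u * Dl s m).natAbs - U * ρ) := by ring
      rw [e2, abs_mul, abs_of_nonneg hF0, mul_comm]
      exact mul_le_mul_of_nonneg_right h3 hF0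
  -- combination
  obtain ⟨A1, hA1⟩ : ∃ A1, A1 = ∑ c ∈ Bx H W cs, Fw P R s (m + 1) c := ⟨_, rfl⟩
  obtain ⟨A0, hA0⟩ : ∃ A0, A0 = ∑ c ∈ Bx H W cs, Fw P R s m c := ⟨_, rfl⟩
  obtain ⟨D, hD⟩ : ∃ D, D = ∑ u ∈ range U, ∑ c ∈ Bx H W cs, Fw P R s (m + 1) (c + sv N s m (W * u)) :=
    ⟨_, rfl⟩
  have h3 : |D - U * A1| ≤ U * (L ^ (m + 1) * (strip H W σ cs).card) := by
    have e : D - U * A1 = ∑ u ∈ range U, (∑ c ∈ Bx H W cs, Fw P R s (m + 1) (c + sv N s m (W * u)) -
        ∑ c ∈ Bx H W cs, Fw P R s (m + 1) c) := by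
      rw [sum_sub_distrib, sum_const, card_range, nsmul_eq_mul, hD, hA1]
    rw [e]
    refine (abs_sum_le_sum_abs _ _).trans ((sum_le_card_nsmul _ _ _ h1).trans (le_of_eq ?_))
    rw [card_range, nsmul_eq_mul]
  have h4 : |D - U * ρ * A0| ≤ 2 * M (W * (Dl s m).natAbs) * A0 := by
    have e : D - U * ρ * A0 = ∑ c ∈ Bx H W cs,
        (∑ u ∈ range U, Fw P R s (m + 1) (c + sv N s m (W * u)) - U * ρ * Fw P R s m c) := by
      rw [sum_sub_distrib, ← mul_sum, ← hA0, sum_comm, ← hD]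
    rw [e]
    refine (abs_sum_le_sum_abs _ _).trans ((sum_le_sum h2).trans (le_of_eq ?_))
    rw [← mul_sum, hA0]
  rw [← hA1, ← hA0]
  have h5 : U * |A1 - ρ * A0| ≤ 2 * M (W * (Dl s m).natAbs) * A0 +
      U * (L ^ (m + 1) * (strip H W σ cs).card) := by
    have e : U * |A1 - ρ * A0| = |U * A1 - U * ρ * A0| := by
      rw [← abs_of_pos hU0, ← abs_mul, abs_of_pos hU0]
      congr 1
      ring
    rw [e]
    have h6 : U * A1 - U * ρ * A0 = (D - U * ρ * A0) - (D - U * A1) := by ring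
    rw [h6]
    exact (abs_sub _ _).trans (add_le_add h4 h3)
  have h6 : |A1 - ρ * A0| ≤ (2 * M (W * (Dl s m).natAbs) * A0 +
      U * (L ^ (m + 1) * (strip H W σ cs).card)) / U := by
    rw [le_div_iff₀ hU0, mul_comm]
    exact h5
  refine h6.trans (le_of_eq ?_)
  field_simp

end Pool.Agent.N913.KS
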