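import Pool.Agent.N913.KS.S2
import Pool.Agent.N913.KT.T4

set_option autoImplicit false
set_option linter.unusedSectionVars false

/-! Moments; concentration in a class, for systems. -/

namespace Pool.Agent.N913.KS

open Finset Polynomial
open Pool.Agent.N913.MT (th th_nonneg th_le tot_prod)
open Pool.Agent.N913.MG (BVz AP1 kappa2)
open Pool.Agent.N913.KT (pol one cop_class numeric rh_ge rh_le conc2 cheb2)

/-- local factor -/
noncomputable def rh {r : ℕ} (W : ℕ) (s : ℕ → Fin r × ℤ) (j : ℕ) : ℝ :=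
  ((W * (Dl s j).natAbs : ℕ) : ℝ) / Nat.totient (W * (Dl s j).natAbs)

/-- moments of products of `n` weights -/
theorem moment {r N : ℕ} (P : Fin r → ℤ[X]) (R Y : ℕ) (M : ℕ → ℝ) (hM : BVz R Y M)
    (hM0 : ∀ q, 0 ≤ M q)
    (W z0 : ℕ) (hW : 1 ≤ W) (hz : 2 ≤ z0) (hWz : ∀ p : ℕ, p.Prime → ¬ p ∣ W → z0 ≤ p)
    (H σ U T K : ℕ) (hU : 1 ≤ U) (cs : Fin r × Fin N → ℤ) (s : ℕ → Fin r × ℤ) (n : ℕ) (hn : n ≤ K)
    (hcnt : ∀ m < n, (prv s m).card < N)
    (hT : ∀ l < n, |(s l).2| ≤ T) (hinj : ∀ l < n, ∀ l' < n, l ≠ l' → s l ≠ s l')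
    (hWR : ∀ p : ℕ, p.Prime → p ∣ W → p ≤ R) (hTR : 2 * T ≤ R)
    (hcl : ∀ l < n, (ev P cs (s l)).natAbs.Coprime W)
    (hσ : W * U * (1 + T) ^ N ≤ σ)
    (hY : ∀ c : Fin r × Fin N → ℤ, (∀ i, |c i| ≤ H + σ) → ∀ x : Fin r × ℤ, |x.2| ≤ T →
      |ev P c x| + (W * (2 * T) ^ N * U : ℕ) + 1 ≤ Y) (hT1 : 1 ≤ T)
    (η : ℝ) (hη0 : 0 ≤ η) (hη : η ≤ 1 / 2) (hδη : Real.log ((2 * T : ℕ) ^ N : ℕ) ≤ η * (z0 * Real.log z0))
    (ξ : ℝ) (hξ0 : 0 ≤ ξ) (hξ1 : ξ ≤ 1)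
    (hξM : ∀ δ : ℕ, 1 ≤ δ → δ ≤ (2 * T) ^ N → 2 * M (W * δ) / U ≤ ξ)
    (hL : 1 ≤ Real.log Y)
    (hξs : Real.log Y ^ K * (strip H W σ cs).card ≤ ξ * (Bx H W cs).card) :
    (Bx H W cs).card * ((W : ℝ) / Nat.totient W) ^ n -
        n * ξ * (Bx H W cs).card * (2 * ((W : ℝ) / Nat.totient W) + 2) ^ n ≤
        ∑ c ∈ Bx H W cs, Fw P R s n c ∧
      ∑ c ∈ Bx H W cs, Fw P R s n c ≤
        (Bx H W cs).card * ((1 + 2 * η) * ((W : ℝ) / Nat.totient W)) ^ n +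
        n * ξ * (Bx H W cs).card * (2 * ((W : ℝ) / Nat.totient W) + 2) ^ n := by
  obtain ⟨ω, hω⟩ : ∃ ω, ω = (W : ℝ) / Nat.totient W := ⟨_, rfl⟩
  rw [← hω]
  have hω1 : 1 ≤ ω := by
    have h1 : (0 : ℝ) < Nat.totient W := by exact_mod_cast Nat.totient_pos.2 hW
    rw [hω, le_div_iff₀ h1, one_mul]
    exact_mod_cast Nat.totient_le W
  have hδ1 : ∀ j < n, 1 ≤ (Dl s j).natAbs := fun j hj =>
    Int.natAbs_pos.2 (Dl_ne s j (fun l hl => hinj l (by omega) j hj (by omega)))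
  have h2T : 1 ≤ 2 * T := by omega
  have hδ2 : ∀ j < n, (Dl s j).natAbs ≤ (2 * T) ^ N := fun j hj =>
    Dl_le s j T N hT1 (fun l hl => hT l (by omega)) (hcnt j hj).le
  have hr1 : ∀ j < n, ω ≤ rh W s j := fun j hj => by
    rw [hω]; exact rh_ge W hW _ (hδ1 j hj)
  have hr2 : ∀ j < n, rh W s j ≤ (1 + 2 * η) * ω := fun j hj => by
    rw [hω]
    apply rh_le W z0 hW _ (hδ1 j hj) hz hWz η hη0 hη
    refine le_trans (Real.log_le_log (by exact_mod_cast hδ1 j hj) ?_) hδη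
    exact_mod_cast hδ2 j hj
  have hnum := numeric (fun m => ∑ c ∈ Bx H W cs, Fw P R s m c) (rh W s) n (Bx H W cs).card (2 * ω) ξ
    (Nat.cast_nonneg _) (by linarith) hξ0 hξ1 (by
      simp only [Fw, range_zero, prod_empty, sum_const, nsmul_eq_mul, mul_one])
    (fun m => sum_nonneg fun c _ => Fw_nonneg P R s m c) (fun m hm => ⟨by linarith [hr1 m hm], by
      have := hr2 m hm
      nlinarith⟩) (fun m hm => by
      have h1 := step P R Y M hM hM0 W hW H σ U T hU hT1 cs s m (hcnt m hm) (fun l hl => hT l (by omega))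
        (fun l hl => hinj l (by omega) m hm (by omega)) hWR hTR (hcl m hm) hσ hY
      refine h1.trans ?_
      apply add_le_add
      · apply mul_le_mul_of_nonneg_right (hξM _ (hδ1 m hm) (hδ2 m hm))
        exact sum_nonneg fun c _ => Fw_nonneg P R s m c
      · refine le_trans ?_ hξs
        apply mul_le_mul_of_nonneg_right _ (Nat.cast_nonneg _)
        exact pow_le_pow_right₀ hL (by omega))
  have h1 := (hnum n le_rfl).2
  have hK0 : (0 : ℝ) ≤ (Bx H W cs).card := Nat.cast_nonneg _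
  have hlo : ω ^ n ≤ ∏ j ∈ range n, rh W s j := by
    have h2 := prod_le_prod (s := range n) (f := fun _ => ω) (g := fun j => rh W s j)
      (fun _ _ => by linarith) (fun j hj => hr1 j (mem_range.1 hj))
    rwa [prod_const, card_range] at h2
  have hhi : ∏ j ∈ range n, rh W s j ≤ ((1 + 2 * η) * ω) ^ n := by
    have h2 := prod_le_prod (s := range n) (f := fun j => rh W s j) (g := fun _ => (1 + 2 * η) * ω)
      (fun j hj => by linarith [hr1 j (mem_range.1 hj)]) (fun j hj => hr2 j (mem_range.1 hj))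
    rwa [prod_const, card_range] at h2
  have h3 := mul_le_mul_of_nonneg_left hlo hK0
  have h4 := mul_le_mul_of_nonneg_left hhi hK0
  rw [abs_le] at h1
  constructor
  · linarith [h1.1]
  · linarith [h1.2]

/-- the positions of a pair -/
def pr {r : ℕ} (k : ℕ) (t t' : ℕ → Fin r × ℤ) : ℕ → Fin r × ℤ := fun j => if j < k then t j else t' (j - k)

theorem Fw_pr {r N : ℕ} (P : Fin r → ℤ[X]) (R k : ℕ) (t t' : ℕ → Fin r × ℤ) (c : Fin r × Fin N → ℤ) :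
    Fw P R (pr k t t') (2 * k) c = Fw P R t k c * Fw P R t' k c := by
  unfold Fw
  rw [two_mul, prod_range_add]
  congr 1
  · apply prod_congr rfl
    intro j hj
    unfold pr
    rw [if_pos (mem_range.1 hj)]
  · apply prod_congr rfl
    intro j _
    unfold pr
    rw [if_neg (by omega), Nat.add_sub_cancel_left]

/-- number of positions in a block -/
def bc {r : ℕ} (k : ℕ) (s : ℕ → Fin r × ℤ) (a : Fin r) : ℕ := ((range k).filter (fun i => (s i).1 = a)).card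

theorem prv_lt {r : ℕ} (k : ℕ) (s : ℕ → Fin r × ℤ) (m : ℕ) (hm : m < k) :
    (prv s m).card < bc k s (s m).1 := by
  unfold prv bc
  apply card_lt_card
  rw [ssubset_iff_of_subset]
  · refine ⟨m, ?_, ?_⟩
    · rw [mem_filter, mem_range]; exact ⟨hm, rfl⟩
    · rw [mem_filter, mem_range]; omega
  · intro l hl
    rw [mem_filter, mem_range] at hl ⊢
    exact ⟨by omega, hl.2⟩

theorem bc_pr {r : ℕ} (k : ℕ) (t t' : ℕ → Fin r × ℤ) (a : Fin r) :
    bc (2 * k) (pr k t t') a = bc k t a + bc k t' a := by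
  unfold bc
  rw [card_filter, card_filter, card_filter, two_mul, sum_range_add]
  congr 1
  · apply sum_congr rfl
    intro j hj
    have e : pr k t t' j = t j := by
      unfold pr
      rw [if_pos (mem_range.1 hj)]
    rw [e]
  · apply sum_congr rfl
    intro j _
    have e : pr k t t' (k + j) = t' j := by
      unfold pr
      rw [if_neg (by omega), Nat.add_sub_cancel_left]
    rw [e]

theorem classT {r N : ℕ} (k : ℕ) (P : Fin r → ℤ[X]) (R Y : ℕ) (M : ℕ → ℝ) (hM : BVz R Y M)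
    (hM0 : ∀ q, 0 ≤ M q)
    (W z0 : ℕ) (hW : 1 ≤ W) (hz : 2 ≤ z0) (hWz : ∀ p : ℕ, p.Prime → ¬ p ∣ W → z0 ≤ p)
    (H σ U T : ℕ) (hU : 1 ≤ U) (cs : Fin r × Fin N → ℤ)
    (hWR : ∀ p : ℕ, p.Prime → p ∣ W → p ≤ R) (hTR : 2 * T ≤ R)
    (hσ : W * U * (1 + T) ^ N ≤ σ)
    (hY : ∀ c : Fin r × Fin N → ℤ, (∀ i, |c i| ≤ H + σ) → ∀ x : Fin r × ℤ, |x.2| ≤ T →
      |ev P c x| + (W * (2 * T) ^ N * U : ℕ) + 1 ≤ Y) (hT1 : 1 ≤ T)
    (η : ℝ) (hη0 : 0 ≤ η) (hη : η ≤ 1 / 2)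
    (hδη : Real.log ((2 * T : ℕ) ^ N : ℕ) ≤ η * (z0 * Real.log z0))
    (ξ : ℝ) (hξ0 : 0 ≤ ξ) (hξ1 : ξ ≤ 1)
    (hξM : ∀ δ : ℕ, 1 ≤ δ → δ ≤ (2 * T) ^ N → 2 * M (W * δ) / U ≤ ξ)
    (hL : 1 ≤ Real.log Y)
    (hξs : Real.log Y ^ (2 * k) * (strip H W σ cs).card ≤ ξ * (Bx H W cs).card)
    (I : Finset ℕ) (hI : I.Nonempty) (ps : ℕ → ℕ → Fin r × ℤ)
    (hps : ∀ n ∈ I, ∀ i < k, |(ps n i).2| ≤ T)
    (hbc : ∀ n ∈ I, ∀ a, 2 * bc k (ps n) a ≤ N)
    (hd : ∀ n ∈ I, ∀ i < k, ∀ j < k, i ≠ j → ps n i ≠ ps n j)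
    (hcop : ∀ n ∈ I, ∀ i < k, (ev P cs (ps n i)).natAbs.Coprime W)
    (K0 : ℕ) (hK0 : ∀ n ∈ I, (I.filter (fun n' => ∃ i < k, ∃ j < k, ps n i = ps n' j)).card ≤ K0)
    (δ : ℝ) (hδ : 0 < δ) :
    (((Bx H W cs).filter (fun c => δ * (I.card * ((W : ℝ) / Nat.totient W) ^ k) ≤
      |∑ n ∈ I, Fw P R (ps n) k c - I.card * ((W : ℝ) / Nat.totient W) ^ k|)).card : ℝ) * δ ^ 2 ≤
      (Bx H W cs).card * (((1 + 2 * η) ^ (2 * k) - 1) + 4 * k * ξ * 16 ^ k +
        K0 * ((k + 1) * 4 ^ k * Real.log Y ^ k) / I.card) := by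
  classical
  obtain ⟨ω, hω⟩ : ∃ ω, ω = (W : ℝ) / Nat.totient W := ⟨_, rfl⟩
  obtain ⟨L, hLL⟩ : ∃ L, L = Real.log Y := ⟨_, rfl⟩
  obtain ⟨A, hA⟩ : ∃ A : ℝ, A = (Bx H W cs).card := ⟨_, rfl⟩
  have hA0 : 0 ≤ A := by rw [hA]; exact Nat.cast_nonneg _
  have hω1 : 1 ≤ ω := by
    have h1 : (0 : ℝ) < Nat.totient W := by exact_mod_cast Nat.totient_pos.2 hW
    rw [hω, le_div_iff₀ h1, one_mul]
    exact_mod_cast Nat.totient_le W
  have hmom : ∀ n : ℕ, n ≤ 2 * k → ∀ t : ℕ → Fin r × ℤ, (∀ m < n, (prv t m).card < N) →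
      (∀ l < n, |(t l).2| ≤ T) →
      (∀ l < n, ∀ l' < n, l ≠ l' → t l ≠ t l') →
      (∀ l < n, (ev P cs (t l)).natAbs.Coprime W) →
      A * ω ^ n - n * ξ * A * (2 * ω + 2) ^ n ≤ ∑ c ∈ Bx H W cs, Fw P R t n c ∧
      ∑ c ∈ Bx H W cs, Fw P R t n c ≤ A * ((1 + 2 * η) * ω) ^ n + n * ξ * A * (2 * ω + 2) ^ n := by
    intro n hn t ht0 ht1 ht2 ht3
    have := moment P R Y M hM hM0 W z0 hW hz hWz H σ U T (2 * k) hU cs t n hn ht0 ht1 ht2 hWR hTR ht3 hσ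
      hY hT1 η hη0 hη hδη ξ hξ0 hξ1 hξM hL hξs
    rw [← hω, ← hA] at this
    exact this
  have hcnt1 : ∀ n ∈ I, ∀ m < k, (prv (ps n) m).card < N := by
    intro n hn m hm
    have h1 := prv_lt k (ps n) m hm
    have h2 := hbc n hn (ps n m).1
    omega
  have hthL : ∀ c ∈ Bx H W cs, ∀ n ∈ I, Fw P R (ps n) k c ≤ L ^ k := by
    intro c hc n hn
    rw [mem_Bx] at hc
    unfold Fw
    refine (prod_le_prod (fun _ _ => th_nonneg _ _) (g := fun _ => L) ?_).trans (le_of_eq ?_)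
    · intro j hj
      rw [hLL]
      apply th_le
      have h1 := hY c (fun i => by
        have : (0 : ℤ) ≤ σ := Int.natCast_nonneg _
        linarith [(hc i).1]) (ps n j) (hps n hn j (mem_range.1 hj))
      have h2 : (0 : ℤ) ≤ ((W * (2 * T) ^ N * U : ℕ) : ℤ) := by positivity
      have h3 : (((ev P c (ps n j)).natAbs : ℕ) : ℤ) ≤ Y := by
        rw [Int.natCast_natAbs]; linarith
      exact_mod_cast h3
    · rw [prod_const, card_range]
  have hL1 : 1 ≤ L := by rw [hLL]; exact hL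
  have hIc : (1 : ℝ) ≤ I.card := by exact_mod_cast hI.card_pos
  obtain ⟨e1, he1⟩ : ∃ e1, e1 = k * ξ * A * (2 * ω + 2) ^ k := ⟨_, rfl⟩
  obtain ⟨e2, he2⟩ : ∃ e2, e2 = A * (((1 + 2 * η) * ω) ^ (2 * k) - ω ^ (2 * k)) +
    ((2 * k : ℕ) : ℝ) * ξ * A * (2 * ω + 2) ^ (2 * k) := ⟨_, rfl⟩
  have hηω : ω ≤ (1 + 2 * η) * ω := by nlinarith
  have hpω : ω ^ (2 * k) ≤ ((1 + 2 * η) * ω) ^ (2 * k) := pow_le_pow_left₀ (by linarith) hηω _
  have he20 : 0 ≤ e2 := by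
    rw [he2]
    have : 0 ≤ ((1 + 2 * η) * ω) ^ (2 * k) - ω ^ (2 * k) := by linarith
    positivity
  have hV := conc2 (Bx H W cs) I (fun n c => Fw P R (ps n) k c) (ω ^ k) e1 e2
    (A * ((k + 1) * 4 ^ k * L ^ k) * ω ^ k) K0
    (fun n n' => ∃ i < k, ∃ j < k, ps n i = ps n' j) (by positivity) he20 (by positivity)
    (fun n hn => by
      rw [← hA, he1]
      exact (hmom k (by omega) (ps n) (hcnt1 n hn) (hps n hn) (hd n hn) (hcop n hn)).1)
    (fun n hn n' hn' hb => by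
      push Not at hb
      have h1 := (hmom (2 * k) le_rfl (pr k (ps n) (ps n')) (by
        intro m hm
        have g1 := prv_lt (2 * k) (pr k (ps n) (ps n')) m hm
        rw [bc_pr] at g1
        have g2 := hbc n hn (pr k (ps n) (ps n') m).1
        have g3 := hbc n' hn' (pr k (ps n) (ps n') m).1
        omega) (by
        intro l hl
        unfold pr
        split_ifs with h
        · exact hps n hn l h
        · exact hps n' hn' (l - k) (by omega)) (by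
        intro l hl l' hl' hne
        unfold pr
        split_ifs with h h' h'
        · exact hd n hn l h l' h' hne
        · exact hb l h (l' - k) (by omega)
        · exact (hb l' h' (l - k) (by omega)).symm
        · exact hd n' hn' (l - k) (by omega) (l' - k) (by omega) (by omega)) (by
        intro l hl
        unfold pr
        split_ifs with h
        · exact hcop n hn l h
        · exact hcop n' hn' (l - k) (by omega))).2
      have h2 : ∑ c ∈ Bx H W cs, Fw P R (pr k (ps n) (ps n')) (2 * k) c =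
          ∑ c ∈ Bx H W cs, Fw P R (ps n) k c * Fw P R (ps n') k c :=
        sum_congr rfl fun c _ => Fw_pr P R k (ps n) (ps n') c
      rw [h2] at h1
      rw [← hA, he2]
      refine h1.trans (le_of_eq ?_)
      rw [← pow_mul, mul_comm k 2]
      ring)
    (fun n hn n' hn' => by
      have h1 : ∑ c ∈ Bx H W cs, Fw P R (ps n) k c * Fw P R (ps n') k c ≤
          (∑ c ∈ Bx H W cs, Fw P R (ps n) k c) * L ^ k := by
        rw [sum_mul]
        apply sum_le_sum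
        intro c hc
        exact mul_le_mul_of_nonneg_left (hthL c hc n' hn') (Fw_nonneg _ _ _ _ _)
      refine h1.trans ?_
      have h2 := (hmom k (by omega) (ps n) (hcnt1 n hn) (hps n hn) (hd n hn) (hcop n hn)).2
      have h3 : A * ((1 + 2 * η) * ω) ^ k + k * ξ * A * (2 * ω + 2) ^ k ≤
          A * ((k + 1) * 4 ^ k) * ω ^ k := by
        have g1 : ((1 + 2 * η) * ω) ^ k ≤ 4 ^ k * ω ^ k := by
          rw [← mul_pow]
          apply pow_le_pow_left₀ (by positivity)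
          nlinarith
        have g2 : (2 * ω + 2) ^ k ≤ 4 ^ k * ω ^ k := by
          rw [← mul_pow]
          apply pow_le_pow_left₀ (by positivity)
          linarith
        calc A * ((1 + 2 * η) * ω) ^ k + k * ξ * A * (2 * ω + 2) ^ k ≤
              A * (4 ^ k * ω ^ k) + k * 1 * A * (4 ^ k * ω ^ k) := by gcongr
          _ = _ := by ring
      calc (∑ c ∈ Bx H W cs, Fw P R (ps n) k c) * L ^ k ≤ (A * ((k + 1) * 4 ^ k) * ω ^ k) * L ^ k :=
            mul_le_mul_of_nonneg_right (h2.trans h3) (by positivity)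
        _ = _ := by ring)
    hK0
  have hωk : 1 ≤ ω ^ k := one_le_pow₀ hω1
  have hωk0 : 0 < ω ^ k := by linarith
  have hIω : 0 < (I.card : ℝ) * ω ^ k := by positivity
  have h1 := cheb2 (Bx H W cs) (fun c => ∑ n ∈ I, Fw P R (ps n) k c) (I.card * ω ^ k) _ δ hIω.le hδ.le hV
  rw [← hω, ← hLL, ← hA]
  obtain ⟨B, hB⟩ : ∃ B : ℝ, B = ((Bx H W cs).filter (fun c => δ * (I.card * ω ^ k) ≤
      |∑ n ∈ I, Fw P R (ps n) k c - I.card * ω ^ k|)).card := ⟨_, rfl⟩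
  rw [← hB] at h1 ⊢
  have h2ω : 2 * ω + 2 ≤ 4 * ω := by linarith
  have hpk : (2 * ω + 2) ^ k ≤ 4 ^ k * ω ^ k := by
    rw [← mul_pow]; exact pow_le_pow_left₀ (by linarith) h2ω k
  have hp2k : (2 * ω + 2) ^ (2 * k) ≤ 16 ^ k * (ω ^ k) ^ 2 := by
    calc (2 * ω + 2) ^ (2 * k) ≤ (4 * ω) ^ (2 * k) := pow_le_pow_left₀ (by linarith) h2ω _
      _ = 16 ^ k * (ω ^ k) ^ 2 := by
          rw [mul_pow, pow_mul 4 2 k, show (4 : ℝ) ^ 2 = 16 by norm_num, ← pow_mul, mul_comm k 2]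
  have h416 : (4 : ℝ) ^ k ≤ 16 ^ k := pow_le_pow_left₀ (by norm_num) (by norm_num) k
  -- main inequality
  have hk0 : (0 : ℝ) ≤ k := Nat.cast_nonneg _
  have hbound : (I.card : ℝ) ^ 2 * (e2 + 2 * ω ^ k * e1) +
      I.card * K0 * (A * ((k + 1) * 4 ^ k * L ^ k) * ω ^ k) ≤
      (A * (((1 + 2 * η) ^ (2 * k) - 1) + 4 * k * ξ * 16 ^ k +
        K0 * ((k + 1) * 4 ^ k * L ^ k) / I.card)) * (I.card * ω ^ k) ^ 2 := by
    have b1 : e2 ≤ A * (((1 + 2 * η) ^ (2 * k) - 1) + 2 * k * ξ * 16 ^ k) * (ω ^ k) ^ 2 := by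
      have e : ((1 + 2 * η) * ω) ^ (2 * k) - ω ^ (2 * k) = ((1 + 2 * η) ^ (2 * k) - 1) * (ω ^ k) ^ 2 := by
        rw [mul_pow, ← pow_mul, mul_comm k 2]; ring
      rw [he2, e]
      have b2 : ((2 * k : ℕ) : ℝ) * ξ * A * (2 * ω + 2) ^ (2 * k) ≤
          ((2 * k : ℕ) : ℝ) * ξ * A * (16 ^ k * (ω ^ k) ^ 2) :=
        mul_le_mul_of_nonneg_left hp2k (by positivity)
      refine (add_le_add le_rfl b2).trans (le_of_eq ?_)
      push_cast
      ring
    have b3 : 2 * ω ^ k * e1 ≤ A * (2 * k * ξ * 16 ^ k) * (ω ^ k) ^ 2 := by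
      rw [he1]
      calc 2 * ω ^ k * (k * ξ * A * (2 * ω + 2) ^ k) ≤ 2 * ω ^ k * (k * ξ * A * (16 ^ k * ω ^ k)) := by
            gcongr
            calc (2 * ω + 2) ^ k ≤ 4 ^ k * ω ^ k := hpk
              _ ≤ 16 ^ k * ω ^ k := mul_le_mul_of_nonneg_right h416 hωk0.le
        _ = _ := by ring
    have b4 : (I.card : ℝ) * K0 * (A * ((k + 1) * 4 ^ k * L ^ k) * ω ^ k) ≤
        A * (K0 * ((k + 1) * 4 ^ k * L ^ k) / I.card) * (I.card * ω ^ k) ^ 2 := by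
      have e : A * (K0 * ((k + 1) * 4 ^ k * L ^ k) / I.card) * (I.card * ω ^ k) ^ 2 =
          (I.card * K0 * (A * ((k + 1) * 4 ^ k * L ^ k) * ω ^ k)) * ω ^ k := by field_simp
      rw [e]
      have h0 : 0 ≤ (I.card : ℝ) * K0 * (A * ((k + 1) * 4 ^ k * L ^ k) * ω ^ k) := by positivity
      nlinarith
    have b5 := mul_le_mul_of_nonneg_left (add_le_add b1 b3) (show (0 : ℝ) ≤ (I.card : ℝ) ^ 2 by positivity)
    refine (add_le_add b5 b4).trans (le_of_eq ?_)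
    ring
  have h3 : (B * δ ^ 2) * (I.card * ω ^ k) ^ 2 ≤
      (A * (((1 + 2 * η) ^ (2 * k) - 1) + 4 * k * ξ * 16 ^ k +
        K0 * ((k + 1) * 4 ^ k * L ^ k) / I.card)) * (I.card * ω ^ k) ^ 2 := by
    calc (B * δ ^ 2) * (I.card * ω ^ k) ^ 2 = B * (δ * (I.card * ω ^ k)) ^ 2 := by ring
      _ ≤ _ := h1.trans hbound
  exact le_of_mul_le_mul_right h3 (by positivity)

end Pool.Agent.N913.KS
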