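import Pool.Agent.N913.KS.S3
import Pool.Agent.N913.KT.T6

set_option autoImplicit false
set_option linter.unusedSectionVars false

/-! Parameters for systems. -/

namespace Pool.Agent.N913.KS

open Finset Polynomial Filter
open Pool.Agent.N913.MT (th th_nonneg th_le tot_prod Wz Wz_le Wz_pos dvd_Wz evt_log_pow evt_log_ge)
open Pool.Agent.N913.MG (BVz AP1 kappa2)
open Pool.Agent.N913.KT (zK WK LK TK evt_ll sw)

theorem Bx_card {ι : Type} [Fintype ι] [DecidableEq ι] (H W : ℕ) (hW : 1 ≤ W) (hWH : W ≤ H) (cs : ι → ℤ) :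
    ((H : ℝ) / W) ^ (Fintype.card ι) ≤ (Bx H W cs).card := by
  unfold Bx
  rw [Fintype.card_piFinset]
  push_cast
  have hone : ∀ i : ι, (H : ℝ) / W ≤
      (((Icc (-(H : ℤ)) H).filter (fun x => (W : ℤ) ∣ x - cs i)).card : ℝ) := by
    intro i
    have h1 := Pool.Agent.N913.KT.Bx_card (N := 1) H W hW hWH (fun _ => cs i)
    unfold Pool.Agent.N913.KT.Bx at h1
    rw [Fintype.card_piFinset, Fin.prod_univ_one, pow_one] at h1
    exact h1
  calc ((H : ℝ) / W) ^ (Fintype.card ι) = ∏ _i : ι, ((H : ℝ) / W) := by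
        rw [prod_const, card_univ]
    _ ≤ _ := prod_le_prod (fun _ _ => by positivity) (fun i _ => hone i)

def DK (k N v E : ℕ) : ℕ := 2 + (2 * E + 1) * N + (2 * k + 2 * v + 1)
def FK (N E d A : ℕ) : ℕ := A + E * (d + N) + 3
noncomputable def UK (k N v E H : ℕ) : ℕ := ⌊(H : ℝ) / Real.log H ^ (DK k N v E)⌋₊
noncomputable def YK (N E d A H : ℕ) : ℕ := H * LK H ^ (FK N E d A)
noncomputable def SK (k N v E : ℕ) (κ : ℝ) (H : ℕ) : ℕ := WK κ H * UK k N v E H * (1 + TK E H) ^ N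

/-- the numerical facts -/
structure Fk (k N v E d A : ℕ) (κ η ξ δ c0 : ℝ) (H : ℕ) : Prop where
  l4 : 4 ≤ Real.log H
  lc : c0 ≤ Real.log H
  L_ge : Real.log H ≤ LK H
  L_le : (LK H : ℝ) ≤ 2 * Real.log H
  T1 : 1 ≤ TK E H
  T_le : (2 * (TK E H : ℝ) + 1) ≤ Real.log H ^ (2 * E + 1)
  zT : zK κ H ≤ 2 * TK E H
  z2 : 2 ≤ zK κ H
  W1 : 1 ≤ WK κ H
  Wr : (WK κ H : ℝ) ≤ Real.log H ^ (2 * κ)
  W_le : (WK κ H : ℝ) ≤ Real.log H ^ 2
  WH : WK κ H ≤ H
  U1 : 1 ≤ UK k N v E H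
  δη : Real.log (((2 * TK E H : ℕ) ^ N : ℕ) : ℝ) ≤ η * (zK κ H * Real.log (zK κ H))
  YH : H ≤ YK N E d A H
  Ylog : Real.log (YK N E d A H) ≤ (1 + δ) * Real.log H
  Yq : WK κ H * (2 * TK E H) ^ N ≤ (YK N E d A H).sqrt.sqrt
  Ybd : ((d + 1 : ℕ) : ℝ) * (H * Real.log H ^ A) * (TK E H : ℝ) ^ d +
    (N : ℝ) * (H + SK k N v E κ H) * (TK E H : ℝ) ^ N +
    (WK κ H * (2 * TK E H) ^ N * UK k N v E H : ℕ) + 1 ≤ YK N E d A H
  Mbd : 2 * ((YK N E d A H : ℝ) / Real.log (YK N E d A H) ^ (DK k N v E + 2 * FK N E d A + 1)) / UK k N v E H ≤ ξ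
  strip : Real.log (YK N E d A H) ^ (2 * k) *
    ((v : ℝ) * (2 * SK k N v E κ H) * (2 * H + 1) ^ (v - 1)) ≤ ξ * ((H : ℝ) / WK κ H) ^ v

theorem fk_evt (k N v E d A : ℕ) (hv : 1 ≤ v) (hE : 1 ≤ E) (κ η ξ δ c0 : ℝ) (hκ0 : 0 < κ) (hκ1 : κ ≤ 1)
    (hη : 0 < η) (hξ : 0 < ξ) (hδ : 0 < δ) (hδ1 : δ ≤ 1) :
    ∃ H0 : ℕ, ∀ H : ℕ, H0 ≤ H → Fk k N v E d A κ η ξ δ c0 H := by
  obtain ⟨H0, hH0⟩ := eventually_atTop.1 ((evt_log_pow (1 / 8) (by norm_num) 2
    (4 * (DK k N v E))).and (((evt_log_ge (max c0 (4 + (d + 1) + 2 * N + 4 / ξ + 2 * v * 4 ^ k * 3 ^ v / ξ +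
      (4 * (FK N E d A) / δ) ^ 2)))).and (((evt_ll ((4 + Real.exp (2 * N * (2 * E + 1) / (η * κ))) / κ))).and
      (eventually_ge_atTop 3))))
  refine ⟨H0, fun H hH => ?_⟩
  obtain ⟨g1, g2, g3, g4⟩ := hH0 H hH
  have hH3 : (3 : ℝ) ≤ H := by exact_mod_cast g4
  have hH0' : (0 : ℝ) < H := by linarith
  obtain ⟨ℓ, hℓ⟩ : ∃ ℓ, ℓ = Real.log H := ⟨_, rfl⟩
  rw [← hℓ] at g1 g2 g3
  have hk1 : (0 : ℝ) ≤ N := Nat.cast_nonneg _
  have c1 := (le_max_left _ _).trans g2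
  have c2 := (le_max_right _ _).trans g2
  have q1 : (0 : ℝ) ≤ d := Nat.cast_nonneg _
  have q2 : (0 : ℝ) ≤ 4 / ξ := by positivity
  have q3 : (0 : ℝ) ≤ 2 * v * 4 ^ k * 3 ^ v / ξ := by positivity
  have q4 : (0 : ℝ) ≤ (4 * (FK N E d A) / δ) ^ 2 := by positivity
  have l4 : 4 ≤ ℓ := by linarith
  have ld : (d : ℝ) + 1 ≤ ℓ := by linarith
  have lk : 2 * (N : ℝ) ≤ ℓ := by linarith
  have lξ : 4 / ξ ≤ ℓ := by linarith
  have lξ2 : 2 * v * 4 ^ k * 3 ^ v / ξ ≤ ℓ := by linarith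
  have lδ : (4 * (FK N E d A) / δ) ^ 2 ≤ ℓ := by linarith
  have hp1 : ∀ n : ℕ, 1 ≤ ℓ ^ n := fun n => one_le_pow₀ (by linarith)
  have hpm : ∀ m n : ℕ, m ≤ n → ℓ ^ m ≤ ℓ ^ n := fun m n h => pow_le_pow_right₀ (by linarith) h
  have hℓ0 : 0 < ℓ := by linarith
  -- log log
  have hκl : 4 + Real.exp (2 * N * (2 * E + 1) / (η * κ)) ≤ κ * Real.log ℓ := by
    have := mul_le_mul_of_nonneg_left g3 hκ0.le
    rwa [mul_div_cancel₀ _ hκ0.ne'] at this
  have hexp := Real.exp_pos (2 * N * (2 * E + 1) / (η * κ))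
  have hll0 : 0 ≤ Real.log ℓ := Real.log_nonneg (by linarith)
  have hll4 : 4 ≤ Real.log ℓ := by
    have := mul_le_mul_of_nonneg_right hκ1 hll0
    linarith
  have hzle : (zK κ H : ℝ) ≤ κ * Real.log ℓ := by
    unfold zK; rw [← hℓ]; exact Nat.floor_le (by positivity)
  have hzge : κ * Real.log ℓ - 1 < zK κ H := by
    unfold zK; rw [← hℓ]; exact Nat.sub_one_lt_floor _
  have hzhalf : κ * Real.log ℓ / 2 ≤ zK κ H := by linarith
  have hz2 : 2 ≤ zK κ H := by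
    have : (2 : ℝ) ≤ zK κ H := by linarith
    exact_mod_cast this
  have hlz : 2 * N * (2 * E + 1) / (η * κ) ≤ Real.log (zK κ H) := by
    rw [Real.le_log_iff_exp_le (by linarith)]
    linarith
  -- L
  have hLge : ℓ ≤ LK H := by unfold LK; rw [← hℓ]; exact Nat.le_ceil _
  have hLle : (LK H : ℝ) ≤ 2 * ℓ := by
    unfold LK; rw [← hℓ]
    have := Nat.ceil_lt_add_one hℓ0.le
    linarith
  have hL0 : (0 : ℝ) < LK H := by linarith
  have hL1 : 1 ≤ LK H := by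
    have : (1 : ℝ) ≤ LK H := by linarith
    exact_mod_cast this
  have hLsq : (LK H : ℝ) ≤ ℓ ^ 2 := by
    have := mul_le_mul_of_nonneg_right (show (2 : ℝ) ≤ ℓ by linarith) hℓ0.le
    rw [sq]; linarith
  have hT1 : 1 ≤ TK E H := Nat.one_le_pow _ _ hL1
  have hT1r : (1 : ℝ) ≤ TK E H := by exact_mod_cast hT1
  have hTle : (TK E H : ℝ) ≤ ℓ ^ (2 * E) := by
    unfold TK
    push_cast
    rw [pow_mul]
    exact pow_le_pow_left₀ hL0.le hLsq _
  have hTL : (LK H : ℝ) ≤ TK E H := by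
    unfold TK
    push_cast
    calc (LK H : ℝ) = (LK H : ℝ) ^ 1 := (pow_one _).symm
      _ ≤ _ := pow_le_pow_right₀ (by linarith) hE
  have h2T : 2 * (TK E H : ℝ) + 1 ≤ ℓ ^ (2 * E + 1) := by
    rw [pow_succ]
    have := mul_le_mul_of_nonneg_left l4 (show 0 ≤ ℓ ^ (2 * E) by positivity)
    linarith [hp1 (2 * E)]
  have hlogL : Real.log (LK H) ≤ 2 * Real.log ℓ := by
    have := Real.log_le_log hL0 hLsq
    rw [Real.log_pow] at this
    push_cast at this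
    exact this
  have hlogle : Real.log ℓ ≤ ℓ := by
    have := Real.log_le_sub_one_of_pos hℓ0
    linarith
  have hzT : zK κ H ≤ 2 * TK E H := by
    have h1 : (zK κ H : ℝ) ≤ ((2 * TK E H : ℕ) : ℝ) := by
      push_cast
      have := mul_le_mul_of_nonneg_right hκ1 hll0
      linarith
    exact_mod_cast h1
  -- W
  have hW1 : 1 ≤ WK κ H := Wz_pos _
  have hWr : (WK κ H : ℝ) ≤ ℓ ^ (2 * κ) := by
    have h1 : (WK κ H : ℝ) ≤ (4 : ℝ) ^ (zK κ H) := by
      have := Wz_le (zK κ H)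
      unfold WK
      exact_mod_cast this
    have h3 : (4 : ℝ) ^ (zK κ H) = Real.exp (zK κ H * Real.log 4) := by
      rw [mul_comm, Real.exp_mul, Real.exp_log (by norm_num), Real.rpow_natCast]
    have h4 : Real.log 4 ≤ 2 := by
      have : Real.log 4 = 2 * Real.log 2 := by
        rw [show (4 : ℝ) = 2 ^ 2 by norm_num, Real.log_pow]; norm_num
      rw [this]
      have := Real.log_two_lt_d9
      linarith
    have h5 : (zK κ H : ℝ) * Real.log 4 ≤ Real.log ℓ * (2 * κ) := by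
      have h6 : 0 ≤ Real.log 4 := Real.log_nonneg (by norm_num)
      have h7 : 0 ≤ κ * Real.log ℓ := by positivity
      have h8 := mul_le_mul hzle h4 h6 h7
      linarith
    calc (WK κ H : ℝ) ≤ Real.exp (zK κ H * Real.log 4) := by rw [← h3]; exact h1
      _ ≤ Real.exp (Real.log ℓ * (2 * κ)) := Real.exp_le_exp.2 h5
      _ = _ := by rw [Real.exp_mul, Real.exp_log hℓ0]
  have hWle : (WK κ H : ℝ) ≤ ℓ ^ 2 := by
    refine hWr.trans ?_
    rw [← Real.rpow_natCast]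
    apply Real.rpow_le_rpow_of_exponent_le (by linarith)
    push_cast
    linarith
  -- powers of ℓ versus H
  have hHpow : 2 * ℓ ^ (4 * DK k N v E) ≤ H := by
    refine g1.trans ?_
    calc (H : ℝ) ^ (1 / 8 : ℝ) ≤ (H : ℝ) ^ (1 : ℝ) :=
          Real.rpow_le_rpow_of_exponent_le (by linarith) (by norm_num)
      _ = H := Real.rpow_one _
  have hD : DK k N v E = 2 + (2 * E + 1) * N + (2 * k + 2 * v + 1) := rfl
  have hHD : 2 * ℓ ^ (DK k N v E) ≤ H := by
    have := hpm (DK k N v E) (4 * DK k N v E) (by omega)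
    linarith
  have hWH : WK κ H ≤ H := by
    have h1 : (WK κ H : ℝ) ≤ H := by
      have := hpm 2 (4 * DK k N v E) (by omega)
      linarith [hp1 (4 * DK k N v E)]
    exact_mod_cast h1
  have hDpos : 0 < ℓ ^ (DK k N v E) := by positivity
  have hUle : (UK k N v E H : ℝ) * ℓ ^ (DK k N v E) ≤ H := by
    have : (UK k N v E H : ℝ) ≤ H / ℓ ^ (DK k N v E) := by
      unfold UK; rw [← hℓ]; exact Nat.floor_le (by positivity)
    rwa [le_div_iff₀ hDpos] at this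
  have hUge : (H : ℝ) / ℓ ^ (DK k N v E) / 2 ≤ UK k N v E H := by
    have h1 : (H : ℝ) / ℓ ^ (DK k N v E) - 1 < UK k N v E H := by
      unfold UK; rw [← hℓ]; exact Nat.sub_one_lt_floor _
    have h2 : 2 ≤ (H : ℝ) / ℓ ^ (DK k N v E) := by rw [le_div_iff₀ hDpos]; linarith
    linarith
  have hU1 : 1 ≤ UK k N v E H := by
    have h2 : 2 ≤ (H : ℝ) / ℓ ^ (DK k N v E) := by rw [le_div_iff₀ hDpos]; linarith
    have h3 : (1 : ℝ) ≤ UK k N v E H := by linarith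
    exact_mod_cast h3
  have hU0 : (0 : ℝ) < UK k N v E H := by
    have : (1 : ℝ) ≤ UK k N v E H := by exact_mod_cast hU1
    linarith
  -- sigma
  have hTp : ∀ y : ℝ, 0 ≤ y → y ≤ ℓ ^ (2 * E + 1) → y ^ N ≤ ℓ ^ ((2 * E + 1) * N) := by
    intro y hy0 hy
    rw [pow_mul ℓ]
    exact pow_le_pow_left₀ hy0 hy _
  have hσ : (SK k N v E κ H : ℝ) * ℓ ^ (2 * k + 2 * v + 1) ≤ H := by
    unfold SK
    push_cast
    calc (WK κ H : ℝ) * UK k N v E H * (1 + TK E H) ^ N * ℓ ^ (2 * k + 2 * v + 1) ≤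
          ℓ ^ 2 * UK k N v E H * ℓ ^ ((2 * E + 1) * N) * ℓ ^ (2 * k + 2 * v + 1) := by
          gcongr
          exact hTp _ (by positivity) (by linarith)
      _ = UK k N v E H * ℓ ^ (DK k N v E) := by
          rw [hD, pow_add, pow_add]; ring
      _ ≤ H := hUle
  have hσH : (SK k N v E κ H : ℝ) ≤ H := by
    have h1 : (0 : ℝ) ≤ SK k N v E κ H := Nat.cast_nonneg _
    have h2 := mul_le_mul_of_nonneg_left (hp1 (2 * k + 2 * v + 1)) h1
    linarith
  have hWT : (WK κ H : ℝ) * (2 * TK E H) ^ N ≤ ℓ ^ (2 + (2 * E + 1) * N) := by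
    rw [pow_add]
    apply mul_le_mul hWle (hTp _ (by positivity) (by linarith)) (by positivity) (by positivity)
  have hWTU : ((WK κ H * (2 * TK E H) ^ N * UK k N v E H : ℕ) : ℝ) ≤ H := by
    push_cast
    calc (WK κ H : ℝ) * (2 * TK E H) ^ N * UK k N v E H ≤
          ℓ ^ (2 + (2 * E + 1) * N) * UK k N v E H := by gcongr
      _ ≤ ℓ ^ (DK k N v E) * UK k N v E H := by
          apply mul_le_mul_of_nonneg_right (hpm _ _ (by omega)) hU0.le
      _ ≤ H := by linarith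
  -- Y
  have hYH : H ≤ YK N E d A H := Nat.le_mul_of_pos_right _ (Nat.pow_pos hL1)
  have hYHr : (H : ℝ) ≤ YK N E d A H := by exact_mod_cast hYH
  have hF : FK N E d A = A + E * (d + N) + 3 := rfl
  have hY0 : (0 : ℝ) < YK N E d A H := by linarith
  have hYlogge : ℓ ≤ Real.log (YK N E d A H) := by rw [hℓ]; exact Real.log_le_log hH0' hYHr
  have hlogYe : Real.log (YK N E d A H) = ℓ + FK N E d A * Real.log (LK H) := by
    unfold YK
    push_cast
    rw [Real.log_mul hH0'.ne' (by positivity), Real.log_pow, hℓ]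
  have hF0 : (0 : ℝ) ≤ FK N E d A := Nat.cast_nonneg _
  have hsqrt : Real.log ℓ ≤ 2 * Real.sqrt ℓ := by
    have h1 : Real.log (Real.sqrt ℓ) = Real.log ℓ / 2 := Real.log_sqrt hℓ0.le
    have h2 := Real.log_le_sub_one_of_pos (Real.sqrt_pos.2 hℓ0)
    linarith
  have hYlog : Real.log (YK N E d A H) ≤ (1 + δ) * ℓ := by
    rw [hlogYe]
    have h1 : 4 * (FK N E d A : ℝ) / δ ≤ Real.sqrt ℓ := Real.le_sqrt_of_sq_le lδ
    have h2 : 4 * (FK N E d A : ℝ) ≤ δ * Real.sqrt ℓ := by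
      rw [div_le_iff₀ hδ] at h1; linarith
    have h3 : (FK N E d A : ℝ) * Real.log (LK H) ≤ FK N E d A * (2 * (2 * Real.sqrt ℓ)) := by
      apply mul_le_mul_of_nonneg_left _ hF0
      linarith
    have h4 : (FK N E d A : ℝ) * (2 * (2 * Real.sqrt ℓ)) ≤ δ * Real.sqrt ℓ * Real.sqrt ℓ := by
      have := mul_le_mul_of_nonneg_right h2 (Real.sqrt_nonneg ℓ)
      linarith
    have h5 : δ * Real.sqrt ℓ * Real.sqrt ℓ = δ * ℓ := by
      rw [mul_assoc, Real.mul_self_sqrt hℓ0.le]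
    linarith
  have hYlog2 : Real.log (YK N E d A H) ≤ 2 * ℓ := by
    have := mul_le_mul_of_nonneg_right hδ1 hℓ0.le
    linarith
  have hYq : WK κ H * (2 * TK E H) ^ N ≤ (YK N E d A H).sqrt.sqrt := by
    rw [Nat.le_sqrt, Nat.le_sqrt]
    have h1 : (((WK κ H * (2 * TK E H) ^ N) * (WK κ H * (2 * TK E H) ^ N) *
      ((WK κ H * (2 * TK E H) ^ N) * (WK κ H * (2 * TK E H) ^ N)) : ℕ) : ℝ) ≤
        (YK N E d A H : ℝ) := by
      push_cast
      have e : ((WK κ H : ℝ) * (2 * TK E H) ^ N) * (WK κ H * (2 * TK E H) ^ N) *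
        ((WK κ H * (2 * TK E H) ^ N) * (WK κ H * (2 * TK E H) ^ N)) =
        ((WK κ H : ℝ) * (2 * TK E H) ^ N) ^ 4 := by ring
      rw [e]
      calc ((WK κ H : ℝ) * (2 * TK E H) ^ N) ^ 4 ≤ (ℓ ^ (2 + (2 * E + 1) * N)) ^ 4 :=
            pow_le_pow_left₀ (by positivity) hWT 4
        _ = ℓ ^ ((2 + (2 * E + 1) * N) * 4) := by rw [← pow_mul]
        _ ≤ ℓ ^ (4 * DK k N v E) := hpm _ _ (by omega)
        _ ≤ H := by linarith [hp1 (4 * DK k N v E)]
        _ ≤ _ := hYHr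
    exact_mod_cast h1
  -- the size bound
  obtain ⟨F', hF'⟩ : ∃ F', F' = A + E * (d + N) + 2 := ⟨_, rfl⟩
  have hLp : ∀ m n : ℕ, m ≤ n → (LK H : ℝ) ^ m ≤ (LK H : ℝ) ^ n := fun m n h =>
    pow_le_pow_right₀ (by linarith) h
  have hYe : (YK N E d A H : ℝ) = H * ((LK H : ℝ) ^ F' * LK H) := by
    unfold YK
    rw [hF, hF']
    push_cast
    rw [← pow_succ]
  have hbd : ((d + 1 : ℕ) : ℝ) * (H * ℓ ^ A) * (TK E H : ℝ) ^ d +
    (N : ℝ) * (H + SK k N v E κ H) * (TK E H : ℝ) ^ N +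
    (WK κ H * (2 * TK E H) ^ N * UK k N v E H : ℕ) + 1 ≤ YK N E d A H := by
    have b1 : ((d + 1 : ℕ) : ℝ) * (H * ℓ ^ A) * (TK E H : ℝ) ^ d ≤ H * (LK H : ℝ) ^ F' := by
      have h1 : ((d + 1 : ℕ) : ℝ) ≤ LK H := by push_cast; linarith
      calc ((d + 1 : ℕ) : ℝ) * (H * ℓ ^ A) * (TK E H : ℝ) ^ d ≤
            (LK H : ℝ) * (H * (LK H : ℝ) ^ A) * (((LK H ^ E : ℕ) : ℝ)) ^ d := by
            unfold TK
            gcongr
        _ = H * (LK H : ℝ) ^ (1 + A + E * d) := by push_cast; rw [← pow_mul]; ring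
        _ ≤ _ := by
            apply mul_le_mul_of_nonneg_left (hLp _ _ _) hH0'.le
            rw [hF']
            have : E * (d + N) = E * d + E * N := by ring
            omega
    have b2 : (N : ℝ) * (H + SK k N v E κ H) * (TK E H : ℝ) ^ N ≤ H * (LK H : ℝ) ^ F' := by
      calc (N : ℝ) * (H + SK k N v E κ H) * (TK E H : ℝ) ^ N ≤
            (N : ℝ) * (H + H) * (((LK H ^ E : ℕ) : ℝ)) ^ N := by
            unfold TK
            gcongr
        _ = (2 * N) * H * (LK H : ℝ) ^ (E * N) := by push_cast; rw [← pow_mul]; ring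
        _ ≤ LK H * H * (LK H : ℝ) ^ (E * N) := by
            gcongr
            linarith
        _ = H * (LK H : ℝ) ^ (1 + E * N) := by rw [pow_add]; ring
        _ ≤ _ := by
            apply mul_le_mul_of_nonneg_left (hLp _ _ _) hH0'.le
            rw [hF']
            have : E * (d + N) = E * d + E * N := by ring
            omega
    have b3 : (1 : ℝ) ≤ (LK H : ℝ) ^ F' := one_le_pow₀ (by linarith)
    have b4 : (H : ℝ) ≤ H * (LK H : ℝ) ^ F' := by
      have := mul_le_mul_of_nonneg_left b3 hH0'.le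
      linarith
    have b5 : (1 : ℝ) ≤ H * (LK H : ℝ) ^ F' := by linarith
    rw [hYe]
    have b6 : 4 * (H * (LK H : ℝ) ^ F') ≤ H * ((LK H : ℝ) ^ F' * LK H) := by
      have : 0 ≤ H * (LK H : ℝ) ^ F' := by linarith
      have := mul_le_mul_of_nonneg_left (show (4 : ℝ) ≤ LK H by linarith) this
      linarith
    linarith
  -- the moduli bound
  have hYle : (YK N E d A H : ℝ) ≤ H * ℓ ^ (2 * FK N E d A) := by
    unfold YK
    push_cast
    rw [pow_mul]
    gcongr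
  have hMbd : 2 * ((YK N E d A H : ℝ) / Real.log (YK N E d A H) ^ (DK k N v E + 2 * FK N E d A + 1)) /
      UK k N v E H ≤ ξ := by
    have h1 : (YK N E d A H : ℝ) / Real.log (YK N E d A H) ^ (DK k N v E + 2 * FK N E d A + 1) ≤
        (H * ℓ ^ (2 * FK N E d A)) / ℓ ^ (DK k N v E + 2 * FK N E d A + 1) := by gcongr
    have h2 : (H * ℓ ^ (2 * FK N E d A)) / ℓ ^ (DK k N v E + 2 * FK N E d A + 1) =
        H / ℓ ^ (DK k N v E) / ℓ := by
      rw [pow_succ, pow_add]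
      field_simp
    rw [h2] at h1
    rw [div_le_iff₀ hU0]
    have h3 : ξ * (H / ℓ ^ (DK k N v E) / 2) ≤ ξ * UK k N v E H := mul_le_mul_of_nonneg_left hUge hξ.le
    refine le_trans ?_ h3
    have h4 : 4 ≤ ξ * ℓ := by rw [div_le_iff₀ hξ] at lξ; linarith
    have h5 : H / ℓ ^ (DK k N v E) / ℓ * 4 ≤ H / ℓ ^ (DK k N v E) / ℓ * (ξ * ℓ) :=
      mul_le_mul_of_nonneg_left h4 (by positivity)
    have h6 : H / ℓ ^ (DK k N v E) / ℓ * (ξ * ℓ) = ξ * (H / ℓ ^ (DK k N v E)) := by field_simp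
    linarith
  -- the strip
  have hst : Real.log (YK N E d A H) ^ (2 * k) *
      ((v : ℝ) * (2 * SK k N v E κ H) * (2 * H + 1) ^ (v - 1)) ≤
      ξ * ((H : ℝ) / WK κ H) ^ v := by
    have hW0 : (0 : ℝ) < WK κ H := by
      have : (1 : ℝ) ≤ WK κ H := by exact_mod_cast hW1
      linarith
    have hσ' : (SK k N v E κ H : ℝ) ≤ H / ℓ ^ (2 * k + 2 * v + 1) := by
      rw [le_div_iff₀ (by positivity)]; exact hσ
    have h1 : ((2 : ℝ) * H + 1) ^ (v - 1) ≤ (3 * H) ^ (v - 1) :=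
      pow_le_pow_left₀ (by positivity) (by linarith) _
    have hlY0 : 0 ≤ Real.log (YK N E d A H) := by linarith
    calc Real.log (YK N E d A H) ^ (2 * k) *
          ((v : ℝ) * (2 * SK k N v E κ H) * (2 * H + 1) ^ (v - 1)) ≤
          (2 * ℓ) ^ (2 * k) * ((v : ℝ) * (2 * (H / ℓ ^ (2 * k + 2 * v + 1))) * (3 * H) ^ (v - 1)) := by
          gcongr
      _ ≤ (2 * ℓ) ^ (2 * k) * ((v : ℝ) * (2 * (1 / ℓ ^ (2 * k + 2 * v + 1))) * (3 * H) ^ v) := by
          apply mul_le_mul_of_nonneg_left _ (by positivity)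
          obtain ⟨v', hv'⟩ : ∃ v', v = v' + 1 := ⟨v - 1, by omega⟩
          have e : (v : ℝ) * (2 * (1 / ℓ ^ (2 * k + 2 * v + 1))) * (3 * H) ^ v =
            3 * ((v : ℝ) * (2 * (H / ℓ ^ (2 * k + 2 * v + 1))) * (3 * H) ^ (v - 1)) := by
            have e1 : (3 * (H : ℝ)) ^ v = (3 * H) ^ (v - 1) * (3 * H) := by
              rw [← pow_succ]; congr 1; omega
            rw [e1]
            ring
          rw [e]
          have : 0 ≤ (v : ℝ) * (2 * (H / ℓ ^ (2 * k + 2 * v + 1))) * (3 * H) ^ (v - 1) := by positivity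
          linarith
      _ = (2 * v * 4 ^ k * 3 ^ v) * (H ^ v * (ℓ ^ (2 * k) / ℓ ^ (2 * k + 2 * v + 1))) := by
          rw [mul_pow, mul_pow, pow_mul 2 2 k]
          norm_num
          ring
      _ = (2 * v * 4 ^ k * 3 ^ v) * (H ^ v * (1 / (ℓ ^ (2 * v) * ℓ))) := by
          have e : ℓ ^ (2 * k + 2 * v + 1) = ℓ ^ (2 * k) * (ℓ ^ (2 * v) * ℓ) := by
            rw [← pow_succ, ← pow_add]; congr 1
          rw [e]
          have : 0 < ℓ ^ (2 * k) := by positivity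
          field_simp
      _ ≤ (ξ * ℓ) * (H ^ v * (1 / (ℓ ^ (2 * v) * ℓ))) := by
          apply mul_le_mul_of_nonneg_right _ (by positivity)
          rw [div_le_iff₀ hξ] at lξ2
          linarith
      _ = ξ * (H ^ v / ℓ ^ (2 * v)) := by field_simp
      _ = ξ * (H / ℓ ^ 2) ^ v := by
          rw [div_pow, ← pow_mul]
      _ ≤ _ := by
          apply mul_le_mul_of_nonneg_left _ hξ.le
          apply pow_le_pow_left₀ (by positivity)
          gcongr
  -- delta eta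
  have hδη : Real.log (((2 * TK E H : ℕ) ^ N : ℕ) : ℝ) ≤
      η * (zK κ H * Real.log (zK κ H)) := by
    have h1 : Real.log (((2 * TK E H : ℕ) ^ N : ℕ) : ℝ) =
        N * (Real.log 2 + E * Real.log (LK H)) := by
      unfold TK
      push_cast
      rw [Real.log_pow, Real.log_mul (by norm_num) (by positivity), Real.log_pow]
    rw [h1]
    have h2 : Real.log 2 ≤ Real.log ℓ := Real.log_le_log (by norm_num) (by linarith)
    have h3 : (E : ℝ) * Real.log (LK H) ≤ E * (2 * Real.log ℓ) :=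
      mul_le_mul_of_nonneg_left hlogL (Nat.cast_nonneg _)
    have h4 : (N : ℝ) * (Real.log 2 + E * Real.log (LK H)) ≤
        N * ((2 * E + 1) * Real.log ℓ) := by
      apply mul_le_mul_of_nonneg_left _ (by positivity)
      linarith
    refine h4.trans ?_
    have h5 : 2 * N * (2 * E + 1) ≤ Real.log (zK κ H) * (η * κ) := by
      rw [div_le_iff₀ (by positivity)] at hlz; exact hlz
    have hlz0 : 0 ≤ Real.log (zK κ H) := Real.log_natCast_nonneg _
    calc (N : ℝ) * ((2 * E + 1) * Real.log ℓ) = (2 * N * (2 * E + 1)) * (Real.log ℓ / 2) := by ring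
      _ ≤ (Real.log (zK κ H) * (η * κ)) * (Real.log ℓ / 2) :=
          mul_le_mul_of_nonneg_right h5 (by linarith)
      _ = η * ((κ * Real.log ℓ / 2) * Real.log (zK κ H)) := by ring
      _ ≤ _ := by
          apply mul_le_mul_of_nonneg_left _ hη.le
          exact mul_le_mul_of_nonneg_right hzhalf hlz0
  exact {
    l4 := by rw [← hℓ]; exact l4
    lc := by rw [← hℓ]; exact c1
    L_ge := by rw [← hℓ]; exact hLge
    L_le := by rw [← hℓ]; exact hLle
    T1 := hT1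
    T_le := by rw [← hℓ]; exact h2T
    zT := hzT
    z2 := hz2
    W1 := hW1
    Wr := by rw [← hℓ]; exact hWr
    W_le := by rw [← hℓ]; exact hWle
    WH := hWH
    U1 := hU1
    δη := hδη
    YH := hYH
    Ylog := by rw [← hℓ]; exact hYlog
    Yq := hYq
    Ybd := by rw [← hℓ]; exact hbd
    Mbd := hMbd
    strip := hst }

end Pool.Agent.N913.KS
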