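import Pool.Agent.N913.KS.S4
import Pool.Agent.N913.KT.T7

set_option autoImplicit false
set_option linter.unusedSectionVars false

/-! Concentration in a class, with parameters, for systems. -/

namespace Pool.Agent.N913.KS

open Finset Polynomial Filter
open Pool.Agent.N913.MT (th th_nonneg th_le tot_prod Wz Wz_le Wz_pos dvd_Wz evt_log_pow evt_log_ge)
open Pool.Agent.N913.MG (BVz AP1 kappa2)
open Pool.Agent.N913.KT (zK WK LK TK evt_ll sw pol_size exists_eta)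

theorem ev_size {r N d : ℕ} (P : Fin r → ℤ[X]) (hd : ∀ a, (P a).natDegree ≤ d) (B : ℝ)
    (hB : ∀ a i, |((P a).coeff i : ℝ)| ≤ B) (c : Fin r × Fin N → ℤ) (G : ℝ) (hG0 : 0 ≤ G)
    (hG : ∀ i, |(c i : ℝ)| ≤ G) (x : Fin r × ℤ) (T : ℝ) (hT : 1 ≤ T) (hx : |(x.2 : ℝ)| ≤ T) :
    |((ev P c x : ℤ) : ℝ)| ≤ ((d + 1 : ℕ) : ℝ) * B * T ^ d + (N : ℝ) * G * T ^ N :=
  pol_size (P x.1) (hd x.1) B (hB x.1) (blk c x.1) G hG0 (fun i => hG (x.1, i)) x.2 T hT hx

theorem classQ (r k N d A E : ℕ) (hr : 1 ≤ r) (hN : 1 ≤ N) (hE : 1 ≤ E) (κ δ lam δ' : ℝ)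
    (hκ0 : 0 < κ) (hκ1 : κ ≤ 1)
    (hδ : 0 < δ) (hlam : 0 < lam) (hδ0' : 0 < δ') (hδ1' : δ' ≤ 1) (K0 : ℕ) :
    ∃ Kc : ℝ, 0 < Kc ∧ ∀ c0 : ℝ, ∃ H0 : ℕ, ∀ H : ℕ, H0 ≤ H →
      (∃ η ξ : ℝ, Fk k N (r * N) E d A κ η ξ δ' c0 H) ∧
      ∀ P : Fin r → ℤ[X], (∀ a, (P a).natDegree ≤ d) →
      (∀ a i, |((P a).coeff i : ℝ)| ≤ H * Real.log H ^ A) →
      ∀ cs : Fin r × Fin N → ℤ, ∀ I : Finset ℕ, ∀ ps : ℕ → ℕ → Fin r × ℤ,
        Kc * Real.log H ^ k ≤ I.card →
        (∀ n ∈ I, ∀ i < k, |(ps n i).2| ≤ TK E H) →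
        (∀ n ∈ I, ∀ a, 2 * bc k (ps n) a ≤ N) →
        (∀ n ∈ I, ∀ i < k, ∀ j < k, i ≠ j → ps n i ≠ ps n j) →
        (∀ n ∈ I, ∀ i < k, (ev P cs (ps n i)).natAbs.Coprime (WK κ H)) →
        (∀ n ∈ I, (I.filter (fun n' => ∃ i < k, ∃ j < k, ps n i = ps n' j)).card ≤ K0) →
        (((Bx H (WK κ H) cs).filter (fun c => δ * (I.card * ((WK κ H : ℝ) / Nat.totient (WK κ H)) ^ k) ≤
          |∑ n ∈ I, Fw P (2 * TK E H) (ps n) k c -
            I.card * ((WK κ H : ℝ) / Nat.totient (WK κ H)) ^ k|)).card : ℝ) ≤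
          lam * (Bx H (WK κ H) cs).card := by
  obtain ⟨μ, hμ⟩ : ∃ μ, μ = lam * δ ^ 2 / 4 := ⟨_, rfl⟩
  have hμ0 : 0 < μ := by rw [hμ]; positivity
  obtain ⟨η, hη0, hη1, hη2⟩ := exists_eta k μ hμ0
  obtain ⟨ξ, hξ⟩ : ∃ ξ, ξ = min 1 (μ / (4 * (k + 1) * 16 ^ k)) := ⟨_, rfl⟩
  have hξ0 : 0 < ξ := by rw [hξ]; positivity
  have hξ1 : ξ ≤ 1 := by rw [hξ]; exact min_le_left _ _
  have hξ2 : 4 * k * ξ * 16 ^ k ≤ μ := by
    have h1 : ξ ≤ μ / (4 * (k + 1) * 16 ^ k) := by rw [hξ]; exact min_le_right _ _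
    rw [le_div_iff₀ (by positivity)] at h1
    have h2 : 0 ≤ 4 * ξ * 16 ^ k := by positivity
    linarith
  refine ⟨K0 * ((k + 1) * 8 ^ k) / μ + 1, by positivity, fun c0 => ?_⟩
  obtain ⟨X0, hX0⟩ := sw (DK k N (r * N) E + 2 * FK N E d A + 1)
  have hv : 1 ≤ r * N := Nat.mul_pos hr hN
  obtain ⟨H1, hH1⟩ := fk_evt k N (r * N) E d A hv hE κ η ξ δ' c0 hκ0 hκ1 hη0 hξ0 hδ0' hδ1'
  refine ⟨max X0 H1, fun H hH => ?_⟩
  have hF := hH1 H ((le_max_right _ _).trans hH)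
  refine ⟨⟨η, ξ, hF⟩, fun P hPd hP cs I ps hI hT hbc hd hcop hK => ?_⟩
  have hHX : X0 ≤ YK N E d A H := ((le_max_left _ _).trans hH).trans hF.YH
  obtain ⟨M, hM0, hM1, hM2⟩ := hX0 (YK N E d A H) hHX
  have l4 := hF.l4
  have hl0 : 0 < Real.log H := by linarith
  have hW1 := hF.W1
  have hT1 := hF.T1
  have h2T : 1 ≤ 2 * TK E H := by omega
  have hYq := hF.Yq
  have hle1 : 2 * TK E H ≤ WK κ H * (2 * TK E H) ^ N := by
    calc 2 * TK E H = (2 * TK E H) ^ 1 := (pow_one _).symm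
      _ ≤ (2 * TK E H) ^ N := Nat.pow_le_pow_right h2T (by omega)
      _ ≤ _ := Nat.le_mul_of_pos_left _ hW1
  have hRY : 2 * TK E H ≤ (YK N E d A H).sqrt := (hle1.trans hYq).trans (Nat.sqrt_le_self _)
  have hlogYH : Real.log H ≤ Real.log (YK N E d A H) := by
    apply Real.log_le_log
    · by_contra hcon
      have : (H : ℝ) = 0 := le_antisymm (not_lt.1 hcon) (Nat.cast_nonneg _)
      rw [this, Real.log_zero] at hl0
      exact lt_irrefl _ hl0
    · exact_mod_cast hF.YH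
  have hIpos : (0 : ℝ) < I.card := by
    refine lt_of_lt_of_le ?_ hI
    positivity
  have hIne : I.Nonempty := card_pos.1 (by exact_mod_cast hIpos)
  have hcard : Fintype.card (Fin r × Fin N) = r * N := by
    rw [Fintype.card_prod, Fintype.card_fin, Fintype.card_fin]
  have hmain := classT k P (2 * TK E H) (YK N E d A H) M (hM1 _ hRY) hM0 (WK κ H) (zK κ H) hW1 hF.z2
    (fun p hp hnd => by
      by_contra hcon
      push Not at hcon
      exact hnd ((dvd_Wz (zK κ H) p hp).2 hcon)) H (SK k N (r * N) E κ H) (UK k N (r * N) E H) (TK E H)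
    hF.U1 cs
    (fun p hp hpd => by
      have := (dvd_Wz (zK κ H) p hp).1 hpd
      have := hF.zT
      omega) le_rfl (by unfold SK; exact le_rfl) (by
      intro c hc x hx
      have h1 := ev_size P hPd (H * Real.log H ^ A) hP c (H + SK k N (r * N) E κ H) (by positivity)
        (fun i => by
        have := hc i
        have h2 : ((|c i| : ℤ) : ℝ) ≤ ((H + SK k N (r * N) E κ H : ℤ) : ℝ) := by exact_mod_cast this
        push_cast at h2
        exact h2) x (TK E H) (by exact_mod_cast hT1) (by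
        have h2 : ((|x.2| : ℤ) : ℝ) ≤ ((TK E H : ℤ) : ℝ) := by exact_mod_cast hx
        push_cast at h2
        exact h2)
      have h2 := hF.Ybd
      have h3 : ((|ev P c x| + (WK κ H * (2 * TK E H) ^ N * UK k N (r * N) E H : ℕ) + 1 : ℤ) : ℝ) ≤
          ((YK N E d A H : ℤ) : ℝ) := by
        push_cast at h1 h2 ⊢
        linarith
      exact_mod_cast h3) hT1 η hη0.le hη1 hF.δη ξ hξ0.le hξ1 (by
      intro δ₁ h1 h2
      have h3 := hM2 (WK κ H * δ₁) (Nat.mul_pos hW1 h1) ((Nat.mul_le_mul_left _ h2).trans hYq)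
      refine le_trans ?_ hF.Mbd
      have : (0 : ℝ) ≤ UK k N (r * N) E H := Nat.cast_nonneg _
      gcongr) (by linarith) (by
      refine le_trans ?_ ((hF.strip).trans ?_)
      · apply mul_le_mul_of_nonneg_left _ (pow_nonneg (by linarith) _)
        have h1 := strip_card H (WK κ H) (SK k N (r * N) E κ H) cs
        rw [hcard] at h1
        exact h1
      · apply mul_le_mul_of_nonneg_left _ hξ0.le
        have h1 := Bx_card H (WK κ H) hW1 hF.WH cs
        rw [hcard] at h1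
        exact h1)
    I hIne ps hT hbc hd hcop K0 hK δ hδ
  have hA0 : (0 : ℝ) ≤ (Bx H (WK κ H) cs).card := Nat.cast_nonneg _
  have h3 : K0 * ((k + 1) * 4 ^ k * Real.log (YK N E d A H) ^ k) / I.card ≤ μ := by
    rw [div_le_iff₀ hIpos]
    have h4 : Real.log (YK N E d A H) ^ k ≤ (2 * Real.log H) ^ k := by
      apply pow_le_pow_left₀ (by linarith)
      refine hF.Ylog.trans ?_
      apply mul_le_mul_of_nonneg_right _ hl0.le
      linarith
    have h5 : (K0 * ((k + 1) * 8 ^ k) / μ) * Real.log H ^ k ≤ I.card := by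
      refine le_trans ?_ hI
      apply mul_le_mul_of_nonneg_right _ (by positivity)
      linarith
    have h6 : K0 * ((k + 1) * 8 ^ k) * Real.log H ^ k ≤ μ * I.card := by
      have := mul_le_mul_of_nonneg_left h5 hμ0.le
      calc K0 * ((k + 1) * 8 ^ k) * Real.log H ^ k =
            μ * (K0 * ((k + 1) * 8 ^ k) / μ * Real.log H ^ k) := by field_simp
        _ ≤ _ := this
    refine le_trans ?_ h6
    calc K0 * ((k + 1) * 4 ^ k * Real.log (YK N E d A H) ^ k) ≤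
          K0 * ((k + 1) * 4 ^ k * (2 * Real.log H) ^ k) := by gcongr
      _ = K0 * ((k + 1) * 8 ^ k) * Real.log H ^ k := by
          rw [mul_pow, show (8 : ℝ) ^ k = 4 ^ k * 2 ^ k by rw [← mul_pow]; norm_num]
          ring
  have h7 := hmain.trans (mul_le_mul_of_nonneg_left (add_le_add (add_le_add hη2 hξ2) h3) hA0)
  have hδ2 : 0 < δ ^ 2 := by positivity
  have h8 : (Bx H (WK κ H) cs).card * (μ + μ + μ) ≤ (lam * (Bx H (WK κ H) cs).card) * δ ^ 2 := by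
    have e : (lam * ((Bx H (WK κ H) cs).card : ℝ)) * δ ^ 2 = (Bx H (WK κ H) cs).card * (4 * μ) := by
      rw [hμ]; ring
    rw [e]
    apply mul_le_mul_of_nonneg_left _ hA0
    linarith
  exact le_of_mul_le_mul_right (h7.trans h8) hδ2

end Pool.Agent.N913.KS
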