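import Pool.Agent.N913.KS.S3
import Pool.Agent.N913.KT.T10

set_option autoImplicit false
set_option linter.unusedSectionVars false

/-! Positions; small values; from weights to counts, for systems. -/

namespace Pool.Agent.N913.KS

open Finset Polynomial Filter
open Pool.Agent.N913.MT (th th_nonneg th_le tot_prod Wz Wz_le Wz_pos dvd_Wz cmod)
open Pool.Agent.N913.KT (pol roots_le deg_le pol_diff SS om cop_Wz good_card window)

/-- positions -/
noncomputable def pz {r k : ℕ} (a0 : Fin r) (α : Fin k → Fin r) (τ : Fin k → ℤ[X]) (n i : ℕ) : Fin r × ℤ :=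
  if h : i < k then (α ⟨i, h⟩, (τ ⟨i, h⟩).eval (n : ℤ)) else (a0, 0)

theorem pz_val {r k : ℕ} (a0 : Fin r) (α : Fin k → Fin r) (τ : Fin k → ℤ[X]) (n : ℕ) (i : Fin k) :
    pz a0 α τ n i = (α i, (τ i).eval (n : ℤ)) := by
  unfold pz
  rw [dif_pos i.2]

theorem coll {r k : ℕ} (a0 : Fin r) (α : Fin k → Fin r) (τ : Fin k → ℤ[X])
    (hτ : ∀ i, 1 ≤ (τ i).natDegree) (I : Finset ℕ) (n : ℕ) :
    (I.filter (fun n' => ∃ i < k, ∃ j < k, pz a0 α τ n i = pz a0 α τ n' j)).card ≤
      k * k * ∑ j, (τ j).natDegree := by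
  classical
  have hsub : I.filter (fun n' => ∃ i < k, ∃ j < k, pz a0 α τ n i = pz a0 α τ n' j) ⊆
      (univ : Finset (Fin k × Fin k)).biUnion (fun a =>
        I.filter (fun n' : ℕ => (τ a.2 - C ((τ a.1).eval (n : ℤ))).eval (n' : ℤ) = 0)) := by
    intro n' hn'
    rw [mem_filter] at hn'
    obtain ⟨h1, i, hi, j, hj, h2⟩ := hn'
    rw [mem_biUnion]
    refine ⟨(⟨i, hi⟩, ⟨j, hj⟩), mem_univ _, ?_⟩
    rw [mem_filter]
    refine ⟨h1, ?_⟩
    have e1 := pz_val a0 α τ n ⟨i, hi⟩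
    have e2 := pz_val a0 α τ n' ⟨j, hj⟩
    simp only at e1 e2
    rw [e1, e2] at h2
    have h3 := congrArg Prod.snd h2
    simp only at h3
    rw [eval_sub, eval_C]
    linarith
  refine (card_le_card hsub).trans (card_biUnion_le.trans ?_)
  refine (sum_le_card_nsmul _ _ (∑ j, (τ j).natDegree) ?_).trans (le_of_eq ?_)
  · intro a _
    refine (roots_le _ ?_ I).trans ?_
    · intro h0
      have h3 := hτ a.2
      have h4 : (τ a.2 - C ((τ a.1).eval (n : ℤ))).natDegree = (τ a.2).natDegree := natDegree_sub_C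
      rw [h0, natDegree_zero] at h4
      omega
    · rw [natDegree_sub_C]
      exact deg_le τ a.2
  · rw [card_univ, Fintype.card_prod, Fintype.card_fin, smul_eq_mul]

theorem irreg {r k : ℕ} (a0 : Fin r) (α : Fin k → Fin r) (τ : Fin k → ℤ[X])
    (hinj : Function.Injective (fun i => (α i, τ i))) (I : Finset ℕ) :
    (I.filter (fun n => ¬ ∀ i < k, ∀ j < k, i ≠ j → pz a0 α τ n i ≠ pz a0 α τ n j)).card ≤
      k * k * ∑ j, (τ j).natDegree := by
  classical
  have hsub : I.filter (fun n => ¬ ∀ i < k, ∀ j < k, i ≠ j → pz a0 α τ n i ≠ pz a0 α τ n j) ⊆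
      (univ : Finset (Fin k × Fin k)).biUnion (fun a =>
        I.filter (fun n : ℕ => (τ a.1 ≠ τ a.2) ∧ (τ a.1 - τ a.2).eval (n : ℤ) = 0)) := by
    intro n hn
    rw [mem_filter] at hn
    obtain ⟨h1, h2⟩ := hn
    push Not at h2
    obtain ⟨i, hi, j, hj, hij, h3⟩ := h2
    rw [mem_biUnion]
    refine ⟨(⟨i, hi⟩, ⟨j, hj⟩), mem_univ _, ?_⟩
    rw [mem_filter]
    have e1 := pz_val a0 α τ n ⟨i, hi⟩
    have e2 := pz_val a0 α τ n ⟨j, hj⟩
    simp only at e1 e2
    rw [e1, e2] at h3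
    refine ⟨h1, ?_, ?_⟩
    · intro h
      apply hij
      have h4 := congrArg Prod.fst h3
      simp only at h4
      have h5 := hinj (a₁ := ⟨i, hi⟩) (a₂ := ⟨j, hj⟩) (Prod.ext h4 h)
      exact Fin.mk.inj_iff.1 h5
    · rw [eval_sub]
      have h4 := congrArg Prod.snd h3
      simp only at h4
      rw [h4, sub_self]
  refine (card_le_card hsub).trans (card_biUnion_le.trans ?_)
  refine (sum_le_card_nsmul _ _ (∑ j, (τ j).natDegree) ?_).trans (le_of_eq ?_)
  · intro a _
    by_cases h : τ a.1 = τ a.2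
    · rw [filter_false_of_mem (fun n _ hn => hn.1 h), card_empty]
      exact Nat.zero_le _
    · have h2 : I.filter (fun n : ℕ => τ a.1 ≠ τ a.2 ∧ (τ a.1 - τ a.2).eval (n : ℤ) = 0) ⊆
          I.filter (fun n : ℕ => (τ a.1 - τ a.2).eval (n : ℤ) = 0) := by
        intro n hn
        rw [mem_filter] at hn ⊢
        exact ⟨hn.1, hn.2.2⟩
      refine (card_le_card h2).trans ((roots_le _ (sub_ne_zero.2 h) I).trans ?_)
      refine (natDegree_sub_le _ _).trans (max_le (deg_le τ _) (deg_le τ _))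
  · rw [card_univ, Fintype.card_prod, Fintype.card_fin, smul_eq_mul]

theorem pz_le {r k : ℕ} (a0 : Fin r) (α : Fin k → Fin r) (τ : Fin k → ℤ[X]) :
    ∃ B : ℝ, 0 ≤ B ∧ ∀ n : ℕ, ∀ y : ℝ, 1 ≤ y → (n : ℝ) ≤ y →
    ∀ i, |((pz a0 α τ n i).2 : ℝ)| ≤ B * y ^ (∑ j, (τ j).natDegree) := by
  obtain ⟨B, hB0, hB⟩ := Pool.Agent.N913.KT.pz_le τ
  refine ⟨B, hB0, fun n y hy hn i => ?_⟩
  have h := hB n y hy hn i
  have e : (pz a0 α τ n i).2 = Pool.Agent.N913.KT.pz τ n i := by
    unfold pz Pool.Agent.N913.KT.pz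
    split_ifs <;> rfl
  rw [e]
  exact h

theorem bc_pz {r k : ℕ} (a0 : Fin r) (α : Fin k → Fin r) (τ : Fin k → ℤ[X]) (n : ℕ) (a : Fin r) :
    bc k (pz a0 α τ n) a = (univ.filter (fun i => α i = a)).card := by
  unfold bc
  rw [card_filter, card_filter, ← Fin.sum_univ_eq_sum_range (fun i => if (pz a0 α τ n i).1 = a then 1 else 0)]
  apply sum_congr rfl
  intro i _
  rw [pz_val]

/-- the box -/
noncomputable def box (r N H : ℕ) : Finset (Fin r × Fin N → ℤ) :=
  Fintype.piFinset (fun _ => Icc (-(H : ℤ)) H)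

theorem small_one {r N : ℕ} (hN : 1 ≤ N) (P : Fin r → ℤ[X]) (H Z : ℕ) (x : Fin r × ℤ) :
    ((box r N H).filter (fun c => |ev P c x| ≤ Z)).card ≤ (2 * Z + 1) * (2 * H + 1) ^ (r * N - 1) := by
  classical
  obtain ⟨i0, hi0⟩ : ∃ i0 : Fin N, (i0 : ℕ) = 0 := ⟨⟨0, hN⟩, rfl⟩
  have h1 : ((box r N H).filter (fun c => |ev P c x| ≤ Z)).card ≤
      (Fintype.piFinset (Function.update (fun _ => Icc (-(H : ℤ)) H) (x.1, i0) (Icc (-(Z : ℤ)) Z))).card := by
    apply card_le_card_of_injOn (fun c => Function.update c (x.1, i0) (ev P c x))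
    · intro c hc
      rw [mem_coe, mem_filter] at hc
      unfold box at hc
      rw [Fintype.mem_piFinset] at hc
      rw [mem_coe, Fintype.mem_piFinset]
      intro i
      simp only
      by_cases hi : i = (x.1, i0)
      · subst hi
        rw [Function.update_self, Function.update_self, mem_Icc]
        exact abs_le.1 hc.2
      · rw [Function.update_of_ne hi, Function.update_of_ne hi]
        exact hc.1 i
    · intro c hc c' hc' h
      simp only at h
      have h2 : ∀ i, i ≠ (x.1, i0) → c i = c' i := by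
        intro i hi
        have := congrFun h i
        rwa [Function.update_of_ne hi, Function.update_of_ne hi] at this
      have h3 : ev P c x = ev P c' x := by
        have := congrFun h (x.1, i0)
        rwa [Function.update_self, Function.update_self] at this
      have h4 := pol_diff (P x.1) (blk c x.1) (blk c' x.1) x.2
      unfold ev at h3
      rw [h3, sub_self, sum_eq_single i0 (fun i _ hi => by
        have : blk c x.1 i = blk c' x.1 i := h2 (x.1, i) (fun h => hi (congrArg Prod.snd h))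
        rw [this, sub_self, zero_mul])
        (fun h => absurd (mem_univ _) h), hi0, pow_zero, mul_one] at h4
      funext i
      by_cases hi : i = (x.1, i0)
      · rw [hi]
        have : blk c x.1 i0 = blk c' x.1 i0 := by linarith
        exact this
      · exact h2 i hi
  refine h1.trans (le_of_eq ?_)
  rw [Fintype.card_piFinset, ← mul_prod_erase univ _ (mem_univ (x.1, i0)), Function.update_self, Int.card_Icc]
  congr 1
  · omega
  · rw [prod_congr rfl (g := fun _ => 2 * H + 1) (fun j hj => by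
      rw [Function.update_of_ne (ne_of_mem_erase hj), Int.card_Icc]; omega), prod_const,
      card_erase_of_mem (mem_univ _), card_univ, Fintype.card_prod, Fintype.card_fin, Fintype.card_fin]

open Classical in
theorem small_all {r N : ℕ} (hN : 1 ≤ N) (P : Fin r → ℤ[X]) (H Z T : ℕ) :
    ((box r N H).filter (fun c => ∃ x : Fin r × ℤ, |x.2| ≤ T ∧ |ev P c x| ≤ Z)).card ≤
      r * (2 * T + 1) * ((2 * Z + 1) * (2 * H + 1) ^ (r * N - 1)) := by
  have hsub : (box r N H).filter (fun c => ∃ x : Fin r × ℤ, |x.2| ≤ T ∧ |ev P c x| ≤ Z) ⊆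
      ((univ : Finset (Fin r)) ×ˢ Icc (-(T : ℤ)) T).biUnion
        (fun x => (box r N H).filter (fun c => |ev P c x| ≤ Z)) := by
    intro c hc
    rw [mem_filter] at hc
    obtain ⟨h1, x, h2, h3⟩ := hc
    rw [mem_biUnion]
    exact ⟨x, mem_product.2 ⟨mem_univ _, mem_Icc.2 (abs_le.1 h2)⟩, mem_filter.2 ⟨h1, h3⟩⟩
  refine (card_le_card hsub).trans (card_biUnion_le.trans ?_)
  refine (sum_le_card_nsmul _ _ _ (fun x _ => small_one hN P H Z x)).trans (le_of_eq ?_)
  rw [card_product, card_univ, Fintype.card_fin, Int.card_Icc, smul_eq_mul]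
  congr 2
  omega

/-- residues of a vector -/
def rs {ι : Type} (W : ℕ) (c : ι → ℤ) : ι → ℤ := fun i => c i % W

theorem Bx_rs {r N : ℕ} (H W : ℕ) (cs : Fin r × Fin N → ℤ) (hcs : ∀ i, cs i ∈ Ico (0 : ℤ) W) :
    Bx H W cs = (box r N H).filter (fun c => rs W c = cs) := by
  ext c
  rw [mem_Bx, mem_filter]
  unfold box rs
  rw [Fintype.mem_piFinset]
  simp only [mem_Icc]
  constructor
  · intro h
    refine ⟨fun i => abs_le.1 (h i).1, ?_⟩
    funext i
    have h1 := (h i).2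
    have h2 := mem_Ico.1 (hcs i)
    have h3 : cs i ≡ c i [ZMOD W] := Int.modEq_iff_dvd.2 h1
    have h4 : c i % W = cs i % W := h3.symm
    rw [h4]
    exact Int.emod_eq_of_lt h2.1 h2.2
  · intro h i
    refine ⟨abs_le.2 (h.1 i), ?_⟩
    have h1 : c i % W = cs i := congrFun h.2 i
    rw [← h1]
    exact Int.dvd_self_sub_emod

theorem box_card (r N H : ℕ) : (box r N H).card = (2 * H + 1) ^ (r * N) := by
  unfold box
  rw [Fintype.card_piFinset, prod_const, card_univ, Fintype.card_prod, Fintype.card_fin,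
    Fintype.card_fin, Int.card_Icc]
  congr 1
  omega

theorem part {r N : ℕ} (H W : ℕ) (hW : 1 ≤ W) (B : Finset (Fin r × Fin N → ℤ)) (lam : ℝ)
    (hlam : ∀ cs : Fin r × Fin N → ℤ,
      ((B.filter (fun c => rs W c = cs)).card : ℝ) ≤ lam * (Bx H W cs).card) :
    (B.card : ℝ) ≤ lam * (2 * H + 1) ^ (r * N) := by
  classical
  have hW0 : (0 : ℤ) < W := by exact_mod_cast hW
  have hmaps : ∀ c : Fin r × Fin N → ℤ, rs W c ∈ Fintype.piFinset (fun _ : Fin r × Fin N => Ico (0 : ℤ) W) := by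
    intro c
    rw [Fintype.mem_piFinset]
    intro i
    rw [mem_Ico]
    exact ⟨Int.emod_nonneg _ hW0.ne', Int.emod_lt_of_pos _ hW0⟩
  have h1 := card_eq_sum_card_fiberwise (s := B) (f := rs W)
    (t := Fintype.piFinset (fun _ : Fin r × Fin N => Ico (0 : ℤ) W)) (fun c _ => hmaps c)
  have h2 := card_eq_sum_card_fiberwise (s := box r N H) (f := rs W)
    (t := Fintype.piFinset (fun _ : Fin r × Fin N => Ico (0 : ℤ) W)) (fun c _ => hmaps c)
  have h4 : ((2 * (H : ℝ) + 1) ^ (r * N)) = ∑ cs ∈ Fintype.piFinset (fun _ : Fin r × Fin N => Ico (0 : ℤ) W),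
      ((Bx H W cs).card : ℝ) := by
    have h5 : ((2 * (H : ℝ) + 1) ^ (r * N)) = (((box r N H).card : ℕ) : ℝ) := by
      rw [box_card]; push_cast; ring
    rw [h5, h2]
    push_cast
    apply sum_congr rfl
    intro cs hcs
    rw [Bx_rs H W cs (fun i => Fintype.mem_piFinset.1 hcs i)]
  rw [h4, mul_sum, h1]
  push_cast
  exact sum_le_sum fun cs _ => hlam cs

/-- the product of the `f_(α i) ∘ τ_i` -/
noncomputable def FP {r k : ℕ} (α : Fin k → Fin r) (τ : Fin k → ℤ[X]) (f : Fin r → ℤ[X]) : ℤ[X] :=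
  ∏ i, (f (α i)).comp (τ i)

theorem FP_eval {r k : ℕ} (α : Fin k → Fin r) (τ : Fin k → ℤ[X]) (f : Fin r → ℤ[X]) (n : ℤ) :
    (FP α τ f).eval n = ∏ i, (f (α i)).eval ((τ i).eval n) := by
  unfold FP
  rw [eval_prod]
  apply prod_congr rfl
  intro i _
  rw [eval_comp]

/-- the polynomials of a coefficient vector -/
noncomputable def pf {r N : ℕ} (P : Fin r → ℤ[X]) (c : Fin r × Fin N → ℤ) (a : Fin r) : ℤ[X] :=
  pol (P a) (blk c a)

theorem ev_pz {r k N : ℕ} (a0 : Fin r) (α : Fin k → Fin r) (τ : Fin k → ℤ[X]) (P : Fin r → ℤ[X])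
    (c : Fin r × Fin N → ℤ) (n : ℕ) (i : Fin k) :
    ev P c (pz a0 α τ n i) = (pf P c (α i)).eval ((τ i).eval (n : ℤ)) := by
  rw [pz_val]
  rfl

theorem FP_cop {r k N : ℕ} (a0 : Fin r) (α : Fin k → Fin r) (τ : Fin k → ℤ[X]) (P : Fin r → ℤ[X])
    (c : Fin r × Fin N → ℤ) (z n : ℕ) :
    ((FP α τ (pf P c)).eval (n : ℤ)).natAbs.Coprime (Wz z) ↔
      ∀ i < k, (ev P c (pz a0 α τ n i)).natAbs.Coprime (Wz z) := by
  rw [cop_Wz]
  constructor
  · intro h i hi
    rw [cop_Wz]
    intro p hp hd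
    apply h p hp
    rw [FP_eval]
    have e := ev_pz a0 α τ P c n ⟨i, hi⟩
    simp only at e
    rw [e] at hd
    exact hd.trans (dvd_prod_of_mem _ (mem_univ (⟨i, hi⟩ : Fin k)))
  · intro h p hp hd
    rw [FP_eval, Prime.dvd_finsetProd_iff (Nat.prime_iff_prime_int.1 (mem_filter.1 hp).2)] at hd
    obtain ⟨i, _, hi⟩ := hd
    have h1 := (cop_Wz z _).1 (h i i.2) p hp
    apply h1
    rw [ev_pz]
    exact hi

theorem F_per (F : ℤ[X]) (z n : ℕ) :
    (F.eval (n : ℤ)).natAbs.Coprime (Wz z) ↔ (F.eval ((n % Wz z : ℕ) : ℤ)).natAbs.Coprime (Wz z) := by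
  rw [cop_Wz, cop_Wz]
  apply forall₂_congr
  intro p hp
  apply not_congr
  have hpW : p ∣ Wz z := dvd_prod_of_mem (fun p => p) hp
  have h2 : (p : ℤ) ∣ F.eval (n : ℤ) - F.eval ((n % Wz z : ℕ) : ℤ) := by
    refine dvd_trans ?_ (sub_dvd_eval_sub _ _ _)
    push_cast
    exact (show (p : ℤ) ∣ (Wz z : ℤ) by exact_mod_cast hpW).trans Int.dvd_self_sub_emod
  constructor
  · intro h
    have := dvd_sub h h2
    simpa using this
  · intro h
    have := dvd_add h2 h
    simpa using this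

end Pool.Agent.N913.KS
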