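import Pool.Agent.N913.KS.S6

set_option autoImplicit false
set_option linter.unusedSectionVars false

/-! Counting coefficient vectors modulo `p` by their values. -/

namespace Pool.Agent.N913.KS

open Finset Polynomial

/-- evaluation modulo `p` -/
noncomputable def evp {r N p : ℕ} (Q : Fin r → (ZMod p)[X]) (c : Fin r × Fin N → ZMod p)
    (x : Fin r × ZMod p) : ZMod p := (Q x.1).eval x.2 + ∑ i : Fin N, c (x.1, i) * x.2 ^ (i : ℕ)

/-- a shift vector -/
noncomputable def shv {r N p : ℕ} (u : (ZMod p)[X]) (a : Fin r) : Fin r × Fin N → ZMod p :=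
  fun y => if y.1 = a then u.coeff y.2 else 0

theorem evp_shift {r N p : ℕ} (Q : Fin r → (ZMod p)[X]) (c : Fin r × Fin N → ZMod p) (u : (ZMod p)[X])
    (hu : u.natDegree < N) (a : Fin r) (w : ZMod p) (x : Fin r × ZMod p) :
    evp Q (c + w • shv u a) x = evp Q c x + if x.1 = a then w * u.eval x.2 else 0 := by
  unfold evp shv
  rw [add_assoc]
  congr 1
  by_cases h : x.1 = a
  · rw [if_pos h, eval_eq_sum_range' hu, ← Fin.sum_univ_eq_sum_range (fun i => u.coeff i * x.2 ^ i), mul_sum,
      ← sum_add_distrib]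
    apply sum_congr rfl
    intro i _
    rw [Pi.add_apply, Pi.smul_apply, if_pos h, smul_eq_mul]
    ring
  · rw [if_neg h, add_zero]
    apply sum_congr rfl
    intro i _
    rw [Pi.add_apply, Pi.smul_apply, if_neg h, smul_zero, add_zero]

theorem cnt_step {r N p : ℕ} [Fact p.Prime] (Q : Fin r → (ZMod p)[X]) (T : Finset (Fin r × ZMod p))
    (x : Fin r × ZMod p) (hx : x ∉ T) (hT : (T.filter (fun y => y.1 = x.1)).card < N) :
    p * ((univ : Finset (Fin r × Fin N → ZMod p)).filter
        (fun c => (∀ y ∈ T, evp Q c y ≠ 0) ∧ evp Q c x ≠ 0)).card =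
      (p - 1) * ((univ : Finset (Fin r × Fin N → ZMod p)).filter (fun c => ∀ y ∈ T, evp Q c y ≠ 0)).card := by
  classical
  obtain ⟨u, hu⟩ : ∃ u : (ZMod p)[X], u = ∏ y ∈ T.filter (fun y => y.1 = x.1), (X - C y.2) := ⟨_, rfl⟩
  have hud : u.natDegree < N := by
    rw [hu, natDegree_prod_of_monic _ _ (fun y _ => monic_X_sub_C _)]
    simp only [natDegree_X_sub_C, sum_const, smul_eq_mul, mul_one]
    exact hT
  have hu0 : ∀ y ∈ T, y.1 = x.1 → u.eval y.2 = 0 := by
    intro y hy h
    rw [hu, eval_prod]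
    apply prod_eq_zero (mem_filter.2 ⟨hy, h⟩)
    simp
  have hux : u.eval x.2 ≠ 0 := by
    rw [hu, eval_prod, prod_ne_zero_iff]
    intro y hy
    rw [mem_filter] at hy
    rw [eval_sub, eval_X, eval_C]
    intro h
    apply hx
    have : x = y := Prod.ext hy.2.symm (sub_eq_zero.1 h)
    rw [this]
    exact hy.1
  have hshT : ∀ c : Fin r × Fin N → ZMod p, ∀ w : ZMod p, ∀ y ∈ T,
      evp Q (c + w • shv u x.1) y = evp Q c y := by
    intro c w y hy
    rw [evp_shift Q c u hud]
    split_ifs with h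
    · rw [hu0 y hy h, mul_zero, add_zero]
    · rw [add_zero]
  have hshx : ∀ c : Fin r × Fin N → ZMod p, ∀ w : ZMod p,
      evp Q (c + w • shv u x.1) x = evp Q c x + w * u.eval x.2 := by
    intro c w
    rw [evp_shift Q c u hud, if_pos rfl]
  obtain ⟨g, hg⟩ : ∃ g : (Fin r × Fin N → ZMod p) → ℕ,
    g = fun c => if (∀ y ∈ T, evp Q c y ≠ 0) ∧ evp Q c x ≠ 0 then 1 else 0 := ⟨_, rfl⟩
  have h1 : ∀ w : ZMod p, ∑ c, g (c + w • shv u x.1) = ∑ c, g c := fun w =>
    Fintype.sum_equiv (Equiv.addRight (w • shv u x.1)) _ _ (fun c => rfl)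
  have h2 : ∑ w : ZMod p, ∑ c, g (c + w • shv u x.1) = p * ∑ c, g c := by
    rw [sum_congr rfl (fun w _ => h1 w), sum_const, card_univ, ZMod.card, smul_eq_mul]
  have h3 : ∀ c, ∑ w : ZMod p, g (c + w • shv u x.1) =
      if (∀ y ∈ T, evp Q c y ≠ 0) then p - 1 else 0 := by
    intro c
    have e : ∀ w : ZMod p, g (c + w • shv u x.1) =
        if (∀ y ∈ T, evp Q c y ≠ 0) then (if evp Q c x + w * u.eval x.2 ≠ 0 then 1 else 0) else 0 := by
      intro w
      rw [hg]
      simp only
      rw [hshx]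
      have : (∀ y ∈ T, evp Q (c + w • shv u x.1) y ≠ 0) ↔ (∀ y ∈ T, evp Q c y ≠ 0) := by
        apply forall₂_congr
        intro y hy
        rw [hshT c w y hy]
      simp only [this]
      split_ifs with a1 a2 a3 a4 a5 <;> first | rfl | (exfalso; tauto)
    rw [sum_congr rfl (fun w _ => e w)]
    split_ifs with h
    · have e2 : ∑ w : ZMod p, (if evp Q c x + w * u.eval x.2 ≠ 0 then 1 else 0) =
          ∑ w : ZMod p, (if w ≠ 0 then 1 else 0) :=
        Fintype.sum_equiv ((Equiv.mulRight₀ (u.eval x.2) hux).trans (Equiv.addLeft (evp Q c x))) _ _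
          (fun w => rfl)
      rw [e2, ← card_filter]
      have : (univ : Finset (ZMod p)).filter (fun w => w ≠ 0) = univ.erase 0 := by
        ext w; simp
      rw [this, card_erase_of_mem (mem_univ _), card_univ, ZMod.card]
    · rw [sum_const_zero]
  rw [card_filter, card_filter]
  have h4 : ∑ c, g c = ∑ c : Fin r × Fin N → ZMod p,
      if (∀ y ∈ T, evp Q c y ≠ 0) ∧ evp Q c x ≠ 0 then 1 else 0 := by rw [hg]
  rw [← h4, ← h2, sum_comm, sum_congr rfl (fun c _ => h3 c), mul_sum]
  apply sum_congr rfl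
  intro c _
  split_ifs <;> simp

theorem cnt {r N p : ℕ} [Fact p.Prime] (Q : Fin r → (ZMod p)[X]) (T : Finset (Fin r × ZMod p)) :
    (∀ a, (T.filter (fun y => y.1 = a)).card ≤ N) →
    (((univ : Finset (Fin r × Fin N → ZMod p)).filter (fun c => ∀ y ∈ T, evp Q c y ≠ 0)).card : ℝ) =
      (p : ℝ) ^ (r * N) * (1 - 1 / (p : ℝ)) ^ T.card := by
  classical
  have hp := (Fact.out : p.Prime)
  have hp0 : (0 : ℝ) < p := by exact_mod_cast hp.pos
  induction T using Finset.induction_on with
  | empty =>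
    intro _
    simp only [notMem_empty, IsEmpty.forall_iff, implies_true, filter_true, card_empty, pow_zero, mul_one]
    rw [card_univ, Fintype.card_fun, ZMod.card, Fintype.card_prod, Fintype.card_fin, Fintype.card_fin]
    push_cast
    rfl
  | insert x T hx ih =>
    intro hT
    have hT' : ∀ a, (T.filter (fun y => y.1 = a)).card ≤ N := fun a =>
      (card_le_card (filter_subset_filter _ (subset_insert _ _))).trans (hT a)
    have hlt : (T.filter (fun y => y.1 = x.1)).card < N := by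
      have h1 := hT x.1
      rw [filter_insert, if_pos rfl, card_insert_of_notMem (fun h => hx (mem_filter.1 h).1)] at h1
      omega
    have h1 := cnt_step Q T x hx hlt
    have h2 : (univ : Finset (Fin r × Fin N → ZMod p)).filter (fun c => ∀ y ∈ insert x T, evp Q c y ≠ 0) =
        (univ : Finset (Fin r × Fin N → ZMod p)).filter
        (fun c => (∀ y ∈ T, evp Q c y ≠ 0) ∧ evp Q c x ≠ 0) := by
      apply filter_congr
      intro c _
      rw [forall_mem_insert, and_comm]
    rw [h2, card_insert_of_notMem hx, pow_succ]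
    have h3 : (p : ℝ) * (((univ : Finset (Fin r × Fin N → ZMod p)).filter
        (fun c => (∀ y ∈ T, evp Q c y ≠ 0) ∧ evp Q c x ≠ 0)).card : ℝ) =
        ((p : ℝ) - 1) * (((univ : Finset (Fin r × Fin N → ZMod p)).filter
          (fun c => ∀ y ∈ T, evp Q c y ≠ 0)).card : ℝ) := by
      have h4 : ((p - 1 : ℕ) : ℝ) = (p : ℝ) - 1 := by
        rw [Nat.cast_sub hp.one_lt.le, Nat.cast_one]
      rw [← h4]
      exact_mod_cast h1
    rw [ih hT'] at h3
    have h5 : ((p : ℝ) - 1) = p * (1 - 1 / p) := by field_simp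
    rw [h5] at h3
    have h6 := mul_left_cancel₀ hp0.ne' (a := (p : ℝ)) (h3.trans (by ring :
      (p : ℝ) * (1 - 1 / p) * ((p : ℝ) ^ (r * N) * (1 - 1 / (p : ℝ)) ^ T.card) =
        p * ((p : ℝ) ^ (r * N) * ((1 - 1 / (p : ℝ)) ^ T.card * (1 - 1 / p)))))
    exact h6

end Pool.Agent.N913.KS
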